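import Mathlib

set_option autoImplicit false

/-!
The curve `y² = x³ + D` and explicit formulas for its group law.
-/

namespace Q52.Deg

open WeierstrassCurve

section curve

variable {k : Type*} [Field k]

/-- The Weierstrass curve `y² = x³ + D`. -/
def Wc (D : k) : WeierstrassCurve k := ⟨0, 0, 0, 0, D⟩

variable (D : k) (F : Type*) [Field F] [Algebra k F]

/-- The group of points over `F` of the curve `y² = x³ + D`. -/
abbrev EP := ((Wc D).toAffine.baseChange F).Point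

variable {F}

/-- `P` is the point with affine coordinates `(x, y)`. -/
def IsPt (P : EP D F) (x y : F) : Prop := ∃ h, P = Affine.Point.some x y h

variable {D}

theorem equation_iff (x y : F) :
    ((Wc D).toAffine.baseChange F).Equation x y ↔ y ^ 2 = x ^ 3 + algebraMap k F D := by
  rw [Affine.equation_iff]
  simp [Wc]

theorem nonsingular_of (h2 : (2 : F) ≠ 0) (h3 : (3 : F) ≠ 0) (hD : algebraMap k F D ≠ 0) {x y : F}
    (h : y ^ 2 = x ^ 3 + algebraMap k F D) :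
    ((Wc D).toAffine.baseChange F).Nonsingular x y := by
  rw [Affine.nonsingular_iff']
  refine ⟨(equation_iff x y).2 h, ?_⟩
  by_cases hx : x = 0
  · right
    subst hx
    have hy : y ≠ 0 := by
      rintro rfl
      apply hD
      simpa using h.symm
    simpa [Wc] using ⟨h2, hy⟩
  · left
    simpa [Wc] using ⟨h3, hx⟩

theorem IsPt.equation {P : EP D F} {x y : F} (h : IsPt D P x y) :
    y ^ 2 = x ^ 3 + algebraMap k F D := by
  obtain ⟨h, rfl⟩ := h
  exact (equation_iff x y).1 h.1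

theorem IsPt.ne_zero {P : EP D F} {x y : F} (h : IsPt D P x y) : P ≠ 0 := by
  obtain ⟨h, rfl⟩ := h
  exact Affine.Point.some_ne_zero h

theorem eq_zero_or_isPt (P : EP D F) : P = 0 ∨ ∃ x y, IsPt D P x y := by
  rcases P with _ | ⟨x, y, h⟩
  · exact Or.inl rfl
  · exact Or.inr ⟨x, y, h, rfl⟩

theorem IsPt.inj {P : EP D F} {x y x' y' : F} (h : IsPt D P x y) (h' : IsPt D P x' y') :
    x = x' ∧ y = y' := by
  obtain ⟨h, rfl⟩ := h
  obtain ⟨h', e⟩ := h'
  simpa using e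

theorem exists_isPt (h2 : (2 : F) ≠ 0) (h3 : (3 : F) ≠ 0) (hD : algebraMap k F D ≠ 0) {x y : F}
    (h : y ^ 2 = x ^ 3 + algebraMap k F D) : ∃ P : EP D F, IsPt D P x y :=
  ⟨_, nonsingular_of h2 h3 hD h, rfl⟩

theorem IsPt.neg {P : EP D F} {x y : F} (h : IsPt D P x y) : IsPt D (-P) x (-y) := by
  obtain ⟨h, rfl⟩ := h
  have e : ((Wc D).toAffine.baseChange F).negY x y = -y := by simp [Affine.negY, Wc]
  have h' := (Affine.nonsingular_neg (W' := (Wc D).toAffine.baseChange F) x y).2 h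
  rw [e] at h'
  refine ⟨h', ?_⟩
  rw [Affine.Point.neg_some]
  simp only [Affine.Point.some.injEq, true_and]
  exact e

theorem IsPt.eq_or {P Q : EP D F} {x y y' : F} (h : IsPt D P x y) (h' : IsPt D Q x y') :
    P = Q ∨ P = -Q := by
  obtain ⟨h, rfl⟩ := h
  obtain ⟨h', rfl⟩ := h'
  exact Affine.Point.X_eq_iff.1 rfl

/-- first coordinate of the sum -/
def addx (x₁ y₁ x₂ y₂ : F) : F := ((y₁ - y₂) / (x₁ - x₂)) ^ 2 - x₁ - x₂
/-- second coordinate of the sum -/
def addy (x₁ y₁ x₂ y₂ : F) : F :=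
  (y₁ - y₂) / (x₁ - x₂) * (x₁ - (((y₁ - y₂) / (x₁ - x₂)) ^ 2 - x₁ - x₂)) - y₁
/-- first coordinate of the double -/
def dblx (x y : F) : F := (3 * x ^ 2 / (2 * y)) ^ 2 - 2 * x
/-- second coordinate of the double -/
def dbly (x y : F) : F :=
  3 * x ^ 2 / (2 * y) * (x - ((3 * x ^ 2 / (2 * y)) ^ 2 - 2 * x)) - y

variable [DecidableEq F]

theorem IsPt.add {P Q : EP D F} {x₁ y₁ x₂ y₂ : F} (hP : IsPt D P x₁ y₁) (hQ : IsPt D Q x₂ y₂)
    (hx : x₁ ≠ x₂) : IsPt D (P + Q) (addx x₁ y₁ x₂ y₂) (addy x₁ y₁ x₂ y₂) := by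
  obtain ⟨h1, rfl⟩ := hP
  obtain ⟨h2, rfl⟩ := hQ
  rw [Affine.Point.add_of_X_ne hx]
  have hs : ((Wc D).toAffine.baseChange F).slope x₁ x₂ y₁ y₂ = (y₁ - y₂) / (x₁ - x₂) :=
    Affine.slope_of_X_ne hx
  have e1 : ((Wc D).toAffine.baseChange F).addX x₁ x₂
      (((Wc D).toAffine.baseChange F).slope x₁ x₂ y₁ y₂) = addx x₁ y₁ x₂ y₂ := by
    rw [hs]
    simp [Affine.addX, Wc, addx]
  have e2 : ((Wc D).toAffine.baseChange F).addY x₁ x₂ y₁
      (((Wc D).toAffine.baseChange F).slope x₁ x₂ y₁ y₂) = addy x₁ y₁ x₂ y₂ := by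
    rw [hs]
    simp [Affine.addY, Affine.negAddY, Affine.negY, Affine.addX, Wc, addy]
    ring
  have h3 := Affine.nonsingular_add h1 h2 (fun hxy => hx hxy.left)
  rw [e1, e2] at h3
  exact ⟨h3, by simp only [Affine.Point.some.injEq]; exact ⟨e1, e2⟩⟩

theorem IsPt.dbl {P : EP D F} {x y : F} (hP : IsPt D P x y) (h2 : (2 : F) ≠ 0) (hy : y ≠ 0) :
    IsPt D (P + P) (dblx x y) (dbly x y) := by
  obtain ⟨h1, rfl⟩ := hP
  have hneg : ((Wc D).toAffine.baseChange F).negY x y = -y := by simp [Affine.negY, Wc]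
  have hy' : y ≠ ((Wc D).toAffine.baseChange F).negY x y := by
    rw [hneg]
    intro h
    have : 2 * y = 0 := by linear_combination h
    exact (mul_ne_zero h2 hy) this
  rw [Affine.Point.add_self_of_Y_ne hy']
  have hs : ((Wc D).toAffine.baseChange F).slope x x y y = 3 * x ^ 2 / (2 * y) := by
    rw [Affine.slope_of_Y_ne rfl hy', hneg]
    simp [Wc]
    ring
  have e1 : ((Wc D).toAffine.baseChange F).addX x x
      (((Wc D).toAffine.baseChange F).slope x x y y) = dblx x y := by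
    rw [hs]
    simp [Affine.addX, Wc, dblx]
    ring
  have e2 : ((Wc D).toAffine.baseChange F).addY x x y
      (((Wc D).toAffine.baseChange F).slope x x y y) = dbly x y := by
    rw [hs]
    simp [Affine.addY, Affine.negAddY, Affine.negY, Affine.addX, Wc, dbly]
    ring
  have h3 := Affine.nonsingular_add h1 h1 (fun hxy => hy' hxy.right)
  rw [e1, e2] at h3
  exact ⟨h3, by simp only [Affine.Point.some.injEq]; exact ⟨e1, e2⟩⟩

/-- functoriality -/
theorem IsPt.map {F' : Type*} [Field F'] [Algebra k F'] [DecidableEq F'] (f : F →ₐ[k] F')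
    {P : EP D F} {x y : F} (hP : IsPt D P x y) :
    IsPt D (Affine.Point.map (W' := (Wc D).toAffine) f P) (f x) (f y) := by
  obtain ⟨h1, rfl⟩ := hP
  exact ⟨_, Affine.Point.map_some f h1⟩

end curve

/-! ### Heights -/

/-- An abstract height bound on a field. -/
structure IsHt {F : Type*} [Field F] (H : F → ℕ → Prop) : Prop where
  mono : ∀ {r d e}, H r d → d ≤ e → H r e
  add : ∀ {r s d e}, H r d → H s e → H (r + s) (d + e)
  mul : ∀ {r s d e}, H r d → H s e → H (r * s) (d + e)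
  neg : ∀ {r d}, H r d → H (-r) d
  inv : ∀ {r d}, H r d → H r⁻¹ d
  nat : ∀ n : ℕ, H (n : F) 0

section heights

variable {F : Type*} [Field F] {H : F → ℕ → Prop} (h : IsHt H)

include h

theorem IsHt.sub {r s : F} {d e : ℕ} (hr : H r d) (hs : H s e) : H (r - s) (d + e) := by
  rw [sub_eq_add_neg]
  exact h.add hr (h.neg hs)

theorem IsHt.div {r s : F} {d e : ℕ} (hr : H r d) (hs : H s e) : H (r / s) (d + e) := by
  rw [div_eq_mul_inv]
  exact h.mul hr (h.inv hs)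

theorem IsHt.sq {r : F} {d : ℕ} (hr : H r d) : H (r ^ 2) (d + d) := by
  rw [pow_two]
  exact h.mul hr hr

theorem IsHt.cube {r : F} {d : ℕ} (hr : H r d) : H (r ^ 3) (d + d + d) := by
  rw [pow_succ]
  exact h.mul (h.sq hr) hr

theorem IsHt.addxy {x₁ y₁ x₂ y₂ : F} {d : ℕ} (h1 : H x₁ d) (h2 : H y₁ d) (h3 : H x₂ d)
    (h4 : H y₂ d) : H (addx x₁ y₁ x₂ y₂) (16 * d) ∧ H (addy x₁ y₁ x₂ y₂) (16 * d) := by
  have hs : H ((y₁ - y₂) / (x₁ - x₂)) (d + d + (d + d)) := h.div (h.sub h2 h4) (h.sub h1 h3)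
  have hx : H (((y₁ - y₂) / (x₁ - x₂)) ^ 2 - x₁ - x₂)
      (d + d + (d + d) + (d + d + (d + d)) + d + d) := h.sub (h.sub (h.sq hs) h1) h3
  refine ⟨h.mono hx (by omega), ?_⟩
  exact h.mono (h.sub (h.mul hs (h.sub h1 hx)) h2) (by omega)

theorem IsHt.dblxy {x y : F} {d : ℕ} (h1 : H x d) (h2 : H y d) :
    H (dblx x y) (16 * d) ∧ H (dbly x y) (16 * d) := by
  have e3 : H (3 : F) 0 := by simpa using h.nat 3
  have e2 : H (2 : F) 0 := by simpa using h.nat 2
  have hs : H (3 * x ^ 2 / (2 * y)) (0 + (d + d) + (0 + d)) :=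
    h.div (h.mul e3 (h.sq h1)) (h.mul e2 h2)
  have hx : H ((3 * x ^ 2 / (2 * y)) ^ 2 - 2 * x)
      (0 + (d + d) + (0 + d) + (0 + (d + d) + (0 + d)) + (0 + d)) := h.sub (h.sq hs) (h.mul e2 h1)
  refine ⟨h.mono hx (by omega), ?_⟩
  exact h.mono (h.sub (h.mul hs (h.sub h1 hx)) h2) (by omega)

end heights

end Q52.Deg
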