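import Mathlib
import Pool.Agent.Q52.Deg.Ell

set_option autoImplicit false

/-!
The curve `y² = x³ + T² (1 - T)` over `K(T)` and the point `σ = (T, T)`.
-/

namespace Q52.Deg

open Polynomial

variable (K : Type*) [Field K]

/-- The field `K(T)`. -/
abbrev F0 := FractionRing K[X]

/-- The variable. -/
noncomputable def T : F0 K := algebraMap K[X] (F0 K) X

/-- The coefficient. -/
noncomputable def D0 : F0 K := T K ^ 2 * (1 - T K)

variable {K}

theorem algebraMap_inj {p q : K[X]} (h : algebraMap K[X] (F0 K) p = algebraMap K[X] (F0 K) q) :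
    p = q := FaithfulSMul.algebraMap_injective K[X] (F0 K) h

theorem algebraMap_ne {p : K[X]} (h : p ≠ 0) : algebraMap K[X] (F0 K) p ≠ 0 := by
  intro h0
  exact h (algebraMap_inj (h0.trans (map_zero _).symm))

theorem T_ne_zero : T K ≠ 0 := algebraMap_ne X_ne_zero

theorem one_sub_T_ne_zero : (1 - T K) ≠ 0 := by
  have h : (1 - X : K[X]) ≠ 0 := by
    intro h
    have := congrArg (eval 0) h
    simp at this
  have := algebraMap_ne h
  rwa [map_sub, map_one] at this

theorem D0_ne_zero : D0 K ≠ 0 := mul_ne_zero (pow_ne_zero _ T_ne_zero) one_sub_T_ne_zero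

theorem natCast_ne {n : ℕ} (h : (n : K) ≠ 0) : (n : F0 K) ≠ 0 := by
  have h1 : (C (n : K) : K[X]) ≠ 0 := C_ne_zero.2 h
  have := algebraMap_ne h1
  simpa using this

/-! ### Heights on `K(T)` -/

/-- `HB1 r d`: the rational function `r` is a quotient of polynomials of degree at most `d`. -/
def HB1 (r : F0 K) (d : ℕ) : Prop :=
  ∃ n m : K[X], m ≠ 0 ∧ n.natDegree ≤ d ∧ m.natDegree ≤ d ∧
    r = algebraMap _ (F0 K) n / algebraMap _ (F0 K) m

theorem isHt_HB1 : IsHt (HB1 (K := K)) where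
  mono := by
    rintro r d e ⟨n, m, hm, h1, h2, h3⟩ hde
    exact ⟨n, m, hm, h1.trans hde, h2.trans hde, h3⟩
  add := by
    rintro r s d e ⟨n, m, hm, h1, h2, rfl⟩ ⟨n', m', hm', h1', h2', rfl⟩
    refine ⟨n * m' + m * n', m * m', mul_ne_zero hm hm', ?_, natDegree_mul_le.trans (by omega), ?_⟩
    · refine (natDegree_add_le _ _).trans (max_le ?_ ?_)
      · exact natDegree_mul_le.trans (by omega)
      · exact natDegree_mul_le.trans (by omega)
    · rw [map_add, map_mul, map_mul, map_mul, div_add_div _ _ (algebraMap_ne hm)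
        (algebraMap_ne hm')]
  mul := by
    rintro r s d e ⟨n, m, hm, h1, h2, rfl⟩ ⟨n', m', hm', h1', h2', rfl⟩
    refine ⟨n * n', m * m', mul_ne_zero hm hm', natDegree_mul_le.trans (by omega),
      natDegree_mul_le.trans (by omega), ?_⟩
    rw [map_mul, map_mul, div_mul_div_comm]
  neg := by
    rintro r d ⟨n, m, hm, h1, h2, rfl⟩
    exact ⟨-n, m, hm, by rwa [natDegree_neg], h2, by rw [map_neg, neg_div]⟩
  inv := by
    rintro r d ⟨n, m, hm, h1, h2, rfl⟩
    by_cases hn : n = 0
    · subst hn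
      rw [map_zero, zero_div, inv_zero]
      exact ⟨0, 1, one_ne_zero, by simp, by simp, by simp⟩
    · exact ⟨m, n, hn, h2, h1, by rw [inv_div]⟩
  nat := by
    intro n
    exact ⟨C (n : K), 1, one_ne_zero, by simp, by simp, by simp⟩

theorem HB1_T : HB1 (T K) 1 :=
  ⟨X, 1, one_ne_zero, natDegree_X_le, by simp, by simp [T]⟩

/-- The height bound controls the degrees in a reduced fraction. -/
theorem HB1.coprime_le {n m : K[X]} {d : ℕ} (hm : m ≠ 0) (hco : IsCoprime n m)
    (h : HB1 (algebraMap _ (F0 K) n / algebraMap _ (F0 K) m) d) :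
    n.natDegree ≤ d ∧ m.natDegree ≤ d := by
  obtain ⟨n', m', hm', h1, h2, h3⟩ := h
  have h4 : n * m' = n' * m := by
    apply algebraMap_inj
    rw [map_mul, map_mul]
    have := (div_eq_div_iff (algebraMap_ne hm) (algebraMap_ne hm')).1 h3
    exact this
  have hdvd : m ∣ m' := by
    have : m ∣ n * m' := ⟨n', by rw [h4, mul_comm]⟩
    exact hco.symm.dvd_of_dvd_mul_left this
  obtain ⟨c, rfl⟩ := hdvd
  have hc : c ≠ 0 := right_ne_zero_of_mul hm'
  have h5 : n * c = n' := by
    apply mul_right_cancel₀ hm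
    rw [← h4]
    ring
  constructor
  · by_cases hn : n = 0
    · rw [hn]
      simp
    · rw [← h5, natDegree_mul hn hc] at h1
      omega
  · rw [natDegree_mul hm hc] at h2
    omega

theorem exists_coprime (r : F0 K) : ∃ n m : K[X], m ≠ 0 ∧ IsCoprime n m ∧
    r = algebraMap _ (F0 K) n / algebraMap _ (F0 K) m := by
  classical
  obtain ⟨n, m, hm, h⟩ := IsFractionRing.div_surjective (A := K[X]) r
  have hm0 : m ≠ 0 := nonZeroDivisors.ne_zero hm
  obtain ⟨a, b, c, hab, ha, hb⟩ := UniqueFactorizationMonoid.exists_reduced_factors' n m hm0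
  have hb0 : b ≠ 0 := by
    rintro rfl
    exact hm0 (by rw [← hb, mul_zero])
  have hc0 : c ≠ 0 := by
    rintro rfl
    exact hm0 (by rw [← hb, zero_mul])
  refine ⟨a, b, hb0, (isRelPrime_iff_isCoprime).1 hab, ?_⟩
  rw [← h, ← ha, ← hb, map_mul, map_mul, mul_div_mul_left _ _ (algebraMap_ne hc0)]

/-- The height of a square root. -/
theorem HB1.sqrt {y : F0 K} {d : ℕ} (h : HB1 (y ^ 2) d) : HB1 y d := by
  obtain ⟨n, m, hm, hco, rfl⟩ := exists_coprime y
  rw [div_pow, ← map_pow, ← map_pow] at h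
  obtain ⟨h1, h2⟩ := h.coprime_le (pow_ne_zero _ hm) (hco.pow)
  rw [natDegree_pow] at h1 h2
  exact ⟨n, m, hm, by omega, by omega, rfl⟩

/-! ### The multiples of `σ` -/

/-- numerators and denominators of `x (2 ^ k σ) / T` -/
noncomputable def pq : ℕ → K[X] × K[X]
  | 0 => (1, 1)
  | (k + 1) => ((pq k).1 * (X * (pq k).1 ^ 3 - 8 * (1 - X) * (pq k).2 ^ 3),
      4 * (pq k).2 * (X * (pq k).1 ^ 3 + (1 - X) * (pq k).2 ^ 3))

variable (h2 : (2 : K) ≠ 0) (h3 : (3 : K) ≠ 0)

include h2 in
theorem pq_eval_zero (k : ℕ) : (pq (K := K) k).1.eval 0 ≠ 0 ∧ (pq (K := K) k).2.eval 0 ≠ 0 := by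
  have h8 : (8 : K) ≠ 0 := by
    have : (8 : K) = 2 ^ 3 := by norm_num
    rw [this]
    exact pow_ne_zero _ h2
  have h4 : (4 : K) ≠ 0 := by
    have : (4 : K) = 2 ^ 2 := by norm_num
    rw [this]
    exact pow_ne_zero _ h2
  induction k with
  | zero => simp [pq]
  | succ k ih =>
    simp only [pq, eval_mul, eval_sub, eval_add, eval_X, eval_pow, eval_one, eval_ofNat]
    constructor
    · simpa using ⟨ih.1, h8, ih.2⟩
    · simpa using ⟨h4, ih.2⟩

include h2 in
theorem pq_eval_one (k : ℕ) : (pq (K := K) k).1.eval 1 ≠ 0 ∧ (pq (K := K) k).2.eval 1 ≠ 0 := by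
  have h4 : (4 : K) ≠ 0 := by
    have : (4 : K) = 2 ^ 2 := by norm_num
    rw [this]
    exact pow_ne_zero _ h2
  induction k with
  | zero => simp [pq]
  | succ k ih =>
    simp only [pq, eval_mul, eval_sub, eval_add, eval_X, eval_pow, eval_one, eval_ofNat]
    constructor
    · simpa using ih.1
    · simpa using ⟨⟨h4, ih.2⟩, ih.1⟩

theorem isCoprime_left_of_isUnit {R : Type*} [CommRing R] {a : R} (h : IsUnit a) (b : R) :
    IsCoprime a b := by
  obtain ⟨u, rfl⟩ := h
  exact ⟨((u⁻¹ : Rˣ) : R), 0, by simp⟩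

theorem not_X_dvd {p : K[X]} (h : p.eval 0 ≠ 0) : IsCoprime X p := by
  rw [(irreducible_X.coprime_iff_not_dvd)]
  rintro ⟨q, rfl⟩
  simp at h

theorem not_one_sub_X_dvd {p : K[X]} (h : p.eval 1 ≠ 0) : IsCoprime (1 - X) p := by
  have e : (1 - X : K[X]) = -(X - C 1) := by simp
  rw [e, IsCoprime.neg_left_iff, (irreducible_X_sub_C (1 : K)).coprime_iff_not_dvd]
  rintro ⟨q, rfl⟩
  simp at h

include h2 h3 in
theorem pq_coprime (k : ℕ) : IsCoprime (pq (K := K) k).1 (pq (K := K) k).2 := by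
  induction k with
  | zero => simpa [pq] using isCoprime_one_left
  | succ k ih =>
    set p := (pq (K := K) k).1 with hp
    set q := (pq (K := K) k).2 with hq
    have hX1 : IsCoprime X q := not_X_dvd (pq_eval_zero h2 k).2
    have hX2 : IsCoprime X p := not_X_dvd (pq_eval_zero h2 k).1
    have hY1 : IsCoprime (1 - X) q := not_one_sub_X_dvd (pq_eval_one h2 k).2
    have hY2 : IsCoprime (1 - X) p := not_one_sub_X_dvd (pq_eval_one h2 k).1
    have hu4 : IsUnit (4 : K[X]) := by
      have h4 : (4 : K) ≠ 0 := by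
        have : (4 : K) = 2 ^ 2 := by norm_num
        rw [this]
        exact pow_ne_zero _ h2
      have : (4 : K[X]) = C 4 := (map_ofNat C 4).symm
      rw [this]
      exact isUnit_C.2 (IsUnit.mk0 _ h4)
    have hu9 : IsUnit (-9 : K[X]) := by
      have h9 : (-9 : K) ≠ 0 := by
        have : (-9 : K) = -(3 ^ 2) := by norm_num
        rw [this]
        exact neg_ne_zero.2 (pow_ne_zero _ h3)
      have : (-9 : K[X]) = C (-9) := by rw [map_neg, map_ofNat]
      rw [this]
      exact isUnit_C.2 (IsUnit.mk0 _ h9)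
    show IsCoprime (p * (X * p ^ 3 - 8 * (1 - X) * q ^ 3)) (4 * q * (X * p ^ 3 + (1 - X) * q ^ 3))
    -- the four pairs
    have c1 : IsCoprime p (X * p ^ 3 + (1 - X) * q ^ 3) := by
      have : IsCoprime p ((1 - X) * q ^ 3) := IsCoprime.mul_right hY2.symm (ih.pow_right)
      have e : X * p ^ 3 + (1 - X) * q ^ 3 = (1 - X) * q ^ 3 + p * (X * p ^ 2) := by ring
      rw [e]
      exact this.add_mul_left_right _
    have c2 : IsCoprime (X * p ^ 3 - 8 * (1 - X) * q ^ 3) q := by
      have : IsCoprime (X * p ^ 3) q := IsCoprime.mul_left hX1 (ih.pow_left)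
      have e : X * p ^ 3 - 8 * (1 - X) * q ^ 3 = X * p ^ 3 + q * (-(8 * (1 - X) * q ^ 2)) := by ring
      rw [e]
      exact this.add_mul_left_left _
    have c3 : IsCoprime (X * p ^ 3 - 8 * (1 - X) * q ^ 3) (X * p ^ 3 + (1 - X) * q ^ 3) := by
      have hq' : IsCoprime (X * p ^ 3 + (1 - X) * q ^ 3) q := by
        have : IsCoprime (X * p ^ 3) q := IsCoprime.mul_left hX1 (ih.pow_left)
        have e : X * p ^ 3 + (1 - X) * q ^ 3 = X * p ^ 3 + q * ((1 - X) * q ^ 2) := by ring
        rw [e]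
        exact this.add_mul_left_left _
      have hY' : IsCoprime (X * p ^ 3 + (1 - X) * q ^ 3) (1 - X) := by
        have hXY : IsCoprime X (1 - X : K[X]) := ⟨1, 1, by ring⟩
        have : IsCoprime (X * p ^ 3) (1 - X) := IsCoprime.mul_left hXY (hY2.symm.pow_left)
        have e : X * p ^ 3 + (1 - X) * q ^ 3 = X * p ^ 3 + (1 - X) * q ^ 3 := rfl
        exact this.add_mul_left_left _
      have h4 : IsCoprime (-9 * ((1 - X) * q ^ 3)) (X * p ^ 3 + (1 - X) * q ^ 3) := by
        refine IsCoprime.mul_left ?_ (IsCoprime.mul_left hY'.symm (hq'.symm.pow_left))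
        exact isCoprime_left_of_isUnit hu9 _
      have e : X * p ^ 3 - 8 * (1 - X) * q ^ 3 = -9 * ((1 - X) * q ^ 3) +
        (X * p ^ 3 + (1 - X) * q ^ 3) * 1 := by ring
      rw [e]
      exact h4.add_mul_left_left _
    refine IsCoprime.mul_left ?_ ?_
    · exact IsCoprime.mul_right (IsCoprime.mul_right (isCoprime_left_of_isUnit hu4 _).symm ih) c1
    · exact IsCoprime.mul_right (IsCoprime.mul_right (isCoprime_left_of_isUnit hu4 _).symm c2) c3

/-- the degrees -/
def dg : ℕ → ℕ
  | 0 => 0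
  | (k + 1) => 4 * dg k + 1

theorem three_dg (k : ℕ) : 3 * dg k + 1 = 4 ^ k := by
  induction k with
  | zero => rfl
  | succ k ih =>
    rw [pow_succ, ← ih, dg]
    ring

theorem dg_strictMono : StrictMono dg := by
  apply strictMono_nat_of_lt_succ
  intro k
  rw [dg]
  omega

include h2 h3 in
theorem pq_degree (k : ℕ) : (pq (K := K) (k + 1)).1.natDegree = dg (k + 1) ∧
    (pq (K := K) (k + 1)).2.natDegree < dg (k + 1) := by
  have h4 : (4 : K) ≠ 0 := by
    have : (4 : K) = 2 ^ 2 := by norm_num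
    rw [this]
    exact pow_ne_zero _ h2
  have h9 : (9 : K) ≠ 0 := by
    have : (9 : K) = 3 ^ 2 := by norm_num
    rw [this]
    exact pow_ne_zero _ h3
  induction k with
  | zero =>
    have e1 : (pq (K := K) 1).1 = C 9 * X + C (-8) := by
      simp only [pq, map_ofNat, map_neg]
      ring
    have e2 : (pq (K := K) 1).2 = C 4 := by
      simp only [pq, map_ofNat]
      ring
    constructor
    · rw [e1, natDegree_linear h9]
      rfl
    · rw [e2, natDegree_C]
      norm_num [dg]
  | succ k ih =>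
    obtain ⟨ih1, ih2⟩ := ih
    set p := (pq (K := K) (k + 1)).1 with hp
    set q := (pq (K := K) (k + 1)).2 with hq
    have hp0 : p ≠ 0 := by
      intro h
      rw [h] at ih1
      have := dg_strictMono (Nat.succ_pos k)
      simp [dg] at ih1
    have hXp : (X * p ^ 3).natDegree = 3 * dg (k + 1) + 1 := by
      rw [natDegree_mul X_ne_zero (pow_ne_zero _ hp0), natDegree_X, natDegree_pow, ih1]
      ring
    have hq3 : ((1 - X) * q ^ 3).natDegree < 3 * dg (k + 1) + 1 := by
      refine lt_of_le_of_lt natDegree_mul_le ?_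
      have e1 : (1 - X : K[X]).natDegree ≤ 1 := by
        refine (natDegree_sub_le _ _).trans ?_
        simp
      have e2 : (q ^ 3).natDegree ≤ 3 * q.natDegree := natDegree_pow_le
      omega
    have hq8 : (8 * (1 - X) * q ^ 3).natDegree < 3 * dg (k + 1) + 1 := by
      have e : (8 * (1 - X) * q ^ 3 : K[X]) = C 8 * ((1 - X) * q ^ 3) := by
        simp only [map_ofNat]
        ring
      rw [e]
      exact lt_of_le_of_lt (natDegree_C_mul_le _ _) hq3
    have hA : (X * p ^ 3 - 8 * (1 - X) * q ^ 3).natDegree = 3 * dg (k + 1) + 1 := by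
      rw [natDegree_sub_eq_left_of_natDegree_lt (by rw [hXp]; exact hq8), hXp]
    have hB : (X * p ^ 3 + (1 - X) * q ^ 3).natDegree = 3 * dg (k + 1) + 1 := by
      rw [natDegree_add_eq_left_of_natDegree_lt (by rw [hXp]; exact hq3), hXp]
    have hA0 : (X * p ^ 3 - 8 * (1 - X) * q ^ 3) ≠ 0 := by
      intro h
      rw [h] at hA
      simp at hA
    have e1 : (pq (K := K) (k + 1 + 1)).1 = p * (X * p ^ 3 - 8 * (1 - X) * q ^ 3) := rfl
    have e2 : (pq (K := K) (k + 1 + 1)).2 = 4 * q * (X * p ^ 3 + (1 - X) * q ^ 3) := rfl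
    constructor
    · rw [e1, natDegree_mul hp0 hA0, hA, ih1]
      show _ = 4 * dg (k + 1) + 1
      ring
    · rw [e2]
      show _ < 4 * dg (k + 1) + 1
      refine lt_of_le_of_lt natDegree_mul_le ?_
      have e3 : (4 * q : K[X]).natDegree ≤ q.natDegree := by
        have : (4 * q : K[X]) = C 4 * q := by rw [map_ofNat]
        rw [this]
        exact natDegree_C_mul_le _ _
      omega

include h2 in
theorem pq_ne_zero (k : ℕ) : (pq (K := K) k).2 ≠ 0 := by
  intro h
  have := (pq_eval_zero h2 k).2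
  rw [h] at this
  simp at this

/-- `x (2 ^ k σ) / T` -/
noncomputable def Xk (K : Type*) [Field K] (k : ℕ) : F0 K :=
  algebraMap K[X] (F0 K) (pq k).1 / algebraMap K[X] (F0 K) (pq k).2

include h2 h3 in
theorem dg_le_of_HB1 (k d : ℕ) (h : HB1 (Xk K k) d) : dg k ≤ d := by
  rcases k with _ | k
  · simp [dg]
  · have := (h.coprime_le (pq_ne_zero h2 _) (pq_coprime h2 h3 _)).1
    rwa [(pq_degree h2 h3 k).1] at this

include h2 h3 in
theorem Xk_injective : Function.Injective (Xk K) := by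
  intro k l h
  have key : ∀ k, (pq (K := K) k).1.natDegree = dg k := by
    intro k
    rcases k with _ | k
    · simp [pq, dg]
    · exact (pq_degree h2 h3 k).1
  have key2 : ∀ k, HB1 (Xk K k) (dg k) := by
    intro k
    refine ⟨_, _, pq_ne_zero h2 k, (key k).le, ?_, rfl⟩
    rcases k with _ | k
    · simp [pq]
    · exact (pq_degree h2 h3 k).2.le
  have h1 := dg_le_of_HB1 h2 h3 k (dg l) (h ▸ key2 l)
  have h2' := dg_le_of_HB1 h2 h3 l (dg k) (h ▸ key2 k)
  exact dg_strictMono.injective (le_antisymm h1 h2')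

include h2 in
theorem HB1_Xk (k : ℕ) (h3 : (3 : K) ≠ 0) : HB1 (Xk K k) (dg k) := by
  have key : (pq (K := K) k).1.natDegree = dg k := by
    rcases k with _ | k
    · simp [pq, dg]
    · exact (pq_degree h2 h3 k).1
  refine ⟨_, _, pq_ne_zero h2 k, key.le, ?_, rfl⟩
  rcases k with _ | k
  · simp [pq]
  · exact (pq_degree h2 h3 k).2.le

end Q52.Deg
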