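import Mathlib

set_option autoImplicit false

/-!
Rational self-maps of projective space and endomorphisms of the function field.
-/

namespace Q52.Deg

open MvPolynomial

/-- A rational self-map of `ℙ^N`: homogeneous polynomials of one common degree without a
nonconstant common factor. -/
structure RatMap (K : Type*) [Field K] (N : ℕ) where
  /-- the coordinates -/
  poly : Fin (N + 1) → MvPolynomial (Fin (N + 1)) K
  /-- the common degree -/
  degree : ℕ
  homogeneous : ∀ i, (poly i).IsHomogeneous degree
  reduced : ∀ p : MvPolynomial (Fin (N + 1)) K, (∀ i, p ∣ poly i) → IsUnit p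

variable {K : Type*} [Field K] {N : ℕ}

/-- The coordinates satisfy no nontrivial polynomial relation. -/
def RatMap.Dominant (f : RatMap K N) : Prop := AlgebraicIndependent K f.poly

/-- The `n`-fold composition computed by substitution (common factors are kept). -/
noncomputable def RatMap.subst (f : RatMap K N) : ℕ → Fin (N + 1) → MvPolynomial (Fin (N + 1)) K
  | 0 => X
  | (n + 1) => fun i => bind₁ (f.subst n) (f.poly i)

/-- `g` is the `n`-th iterate of `f`: it is obtained from the `n`-fold substitution by dividing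
out a common factor. -/
def RatMap.IsIterate (f : RatMap K N) (n : ℕ) (g : RatMap K N) : Prop :=
  ∃ c : MvPolynomial (Fin (N + 1)) K, c ≠ 0 ∧ ∀ i, f.subst n i = c * g.poly i

/-- `e n = deg (f^n)` for all `n ≥ 1`: the `n`-th iterate exists, and its degree is `e n`. -/
def RatMap.IsDegreeSequence (f : RatMap K N) (e : ℕ → ℕ) : Prop :=
  ∀ n, 1 ≤ n → (∃ g, f.IsIterate n g) ∧ ∀ g, f.IsIterate n g → g.degree = e n

theorem RatMap.exists_ne_zero (g : RatMap K N) : ∃ i, g.poly i ≠ 0 := by
  by_contra h
  push Not at h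
  have := g.reduced 0 (fun i => by rw [h i])
  exact not_isUnit_zero this

/-! ### Reduction of a tuple -/

theorem homog_of_dvd {σ : Type*} [Finite σ] {F G : MvPolynomial σ K} {n : ℕ}
    (hF : F.IsHomogeneous n) (hF0 : F ≠ 0) (h : G ∣ F) : G.IsHomogeneous G.totalDegree := by
  obtain ⟨H, rfl⟩ := h
  have hG0 : G ≠ 0 := left_ne_zero_of_mul hF0
  have hK0 : H ≠ 0 := right_ne_zero_of_mul hF0
  have hle : ∀ P : MvPolynomial σ K, P ≠ 0 → (P : MvPowerSeries σ K).order ≤ P.totalDegree := by
    intro P hP
    obtain ⟨d, hd⟩ := MvPolynomial.ne_zero_iff.1 hP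
    have h1 : (P : MvPowerSeries σ K).order ≤ (d.degree : ℕ∞) :=
      MvPowerSeries.order_le (by simpa using hd)
    refine h1.trans ?_
    have h2 : d.degree ≤ P.totalDegree := by
      have := MvPolynomial.le_totalDegree (p := P) (s := d) (MvPolynomial.mem_support_iff.2 hd)
      simpa [Finsupp.degree_apply, Finsupp.sum] using this
    exact_mod_cast h2
  have hmul : ((G * H : MvPolynomial σ K) : MvPowerSeries σ K).order =
      (G : MvPowerSeries σ K).order + (H : MvPowerSeries σ K).order := by
    rw [MvPolynomial.coe_mul, MvPowerSeries.order_mul]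
  have hFo : (n : ℕ∞) ≤ ((G * H : MvPolynomial σ K) : MvPowerSeries σ K).order := by
    apply MvPowerSeries.nat_le_order
    intro d hd
    rw [MvPolynomial.coeff_coe]
    by_contra hne
    have := hF hne
    have h' : d.degree = n := by rw [← this, Finsupp.degree_eq_weight_one]; rfl
    omega
  have hT : (G * H).totalDegree = n := hF.totalDegree hF0
  rw [MvPolynomial.totalDegree_mul_of_isDomain hG0 hK0] at hT
  have hGo := hle G hG0
  have hKo := hle H hK0
  rw [hmul] at hFo
  intro d hd
  have h1 : (G : MvPowerSeries σ K).order ≤ (d.degree : ℕ∞) :=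
      MvPowerSeries.order_le (by simpa using hd)
  have h2 : d.degree ≤ G.totalDegree := by
      have := MvPolynomial.le_totalDegree (p := G) (s := d) (MvPolynomial.mem_support_iff.2 hd)
      simpa [Finsupp.degree_apply, Finsupp.sum] using this
  have h3 : (n : ℕ∞) ≤ (d.degree : ℕ∞) + (H.totalDegree : ℕ∞) := hFo.trans (add_le_add h1 hKo)
  have h4 : n ≤ d.degree + H.totalDegree := by exact_mod_cast h3
  have h5 : d.degree = G.totalDegree := by omega
  rw [← h5, Finsupp.degree_eq_weight_one]
  rfl

/-- A tuple of homogeneous polynomials of one degree, not all zero, is a multiple of a reduced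
one. -/
theorem exists_reduced (P : Fin (N + 1) → MvPolynomial (Fin (N + 1)) K) (e : ℕ)
    (hP : ∀ i, (P i).IsHomogeneous e) (i₀ : Fin (N + 1)) (h₀ : P i₀ ≠ 0) :
    ∃ (c : MvPolynomial (Fin (N + 1)) K) (g : RatMap K N), c ≠ 0 ∧ ∀ i, P i = c * g.poly i := by
  classical
  let _ : StrongNormalizationMonoid (MvPolynomial (Fin (N + 1)) K) :=
    UniqueFactorizationMonoid.strongNormalizationMonoid
  let _ : NormalizedGCDMonoid (MvPolynomial (Fin (N + 1)) K) :=
    UniqueFactorizationMonoid.toNormalizedGCDMonoid _
  obtain ⟨g, hg, hg1⟩ := Finset.extract_gcd P (s := Finset.univ) ⟨i₀, Finset.mem_univ _⟩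
  set c := Finset.univ.gcd P with hc
  have hPg : ∀ i, P i = c * g i := fun i => hg i (Finset.mem_univ i)
  have hc0 : c ≠ 0 := by
    intro h
    exact h₀ (by rw [hPg, h, zero_mul])
  have hgi₀ : g i₀ ≠ 0 := by
    intro h
    exact h₀ (by rw [hPg, h, mul_zero])
  refine ⟨c, ⟨g, (g i₀).totalDegree, ?_, ?_⟩, hc0, hPg⟩
  · intro i
    by_cases hi : g i = 0
    · rw [hi]
      exact isHomogeneous_zero _ _ _
    · have hPi : P i ≠ 0 := by
        rw [hPg]
        exact mul_ne_zero hc0 hi
      have h1 := homog_of_dvd (hP i) hPi ⟨c, by rw [hPg, mul_comm]⟩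
      have e1 := (hP i).totalDegree hPi
      have e2 := (hP i₀).totalDegree h₀
      rw [hPg, totalDegree_mul_of_isDomain hc0 hi] at e1
      rw [hPg, totalDegree_mul_of_isDomain hc0 hgi₀] at e2
      have : (g i).totalDegree = (g i₀).totalDegree := by omega
      rwa [this] at h1
  · intro p hp
    have h2 : p ∣ Finset.univ.gcd g := Finset.dvd_gcd fun i _ => hp i
    rw [hg1] at h2
    exact isUnit_of_dvd_one h2

/-- The reduced tuple has the smallest degree in its class. -/
theorem RatMap.degree_le (g : RatMap K N) (P : Fin (N + 1) → MvPolynomial (Fin (N + 1)) K) (e : ℕ)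
    (hP : ∀ i, (P i).IsHomogeneous e) (c c' : MvPolynomial (Fin (N + 1)) K)
    (hc : c ≠ 0) (h : ∀ i, c * g.poly i = c' * P i) : g.degree ≤ e := by
  obtain ⟨a, b, d, hab, ha, hb⟩ := UniqueFactorizationMonoid.exists_reduced_factors c hc c'
  have hd : d ≠ 0 := by
    rintro rfl
    exact hc (by rw [← ha, zero_mul])
  have h1 : ∀ i, a * g.poly i = b * P i := by
    intro i
    have := h i
    rw [← ha, ← hb, mul_assoc, mul_assoc] at this
    exact mul_left_cancel₀ hd this
  have hbu : IsUnit b := g.reduced b fun i => by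
    have : b ∣ a * g.poly i := ⟨_, h1 i⟩
    exact (hab.symm).dvd_of_dvd_mul_left this
  obtain ⟨i, hi⟩ := g.exists_ne_zero
  obtain ⟨w, hw, rfl⟩ := MvPolynomial.isUnit_iff_eq_C_of_isReduced.1 hbu
  have ha0 : a ≠ 0 := by
    rintro rfl
    exact hc (by rw [← ha, mul_zero])
  have hP0 : P i ≠ 0 := by
    intro h0
    have := h1 i
    rw [h0, mul_zero] at this
    exact mul_ne_zero ha0 hi this
  have e1 : (a * g.poly i).totalDegree = e := by
    rw [h1 i]
    have : (C w * P i).IsHomogeneous e := by
      simpa using (isHomogeneous_C (Fin (N + 1)) w).mul (hP i)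
    exact this.totalDegree (mul_ne_zero (by simpa using hw.ne_zero) hP0)
  rw [totalDegree_mul_of_isDomain ha0 hi, (g.homogeneous i).totalDegree hi] at e1
  omega

theorem RatMap.degree_unique (g g' : RatMap K N) (c c' : MvPolynomial (Fin (N + 1)) K)
    (hc : c ≠ 0) (hc' : c' ≠ 0) (h : ∀ i, c * g.poly i = c' * g'.poly i) :
    g.degree = g'.degree :=
  le_antisymm (g.degree_le g'.poly _ g'.homogeneous c c' hc h)
    (g'.degree_le g.poly _ g.homogeneous c' c hc' fun i => (h i).symm)

theorem RatMap.subst_homogeneous (f : RatMap K N) (n : ℕ) :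
    ∀ i, (f.subst n i).IsHomogeneous (f.degree ^ n) := by
  induction n with
  | zero =>
    intro i
    simpa [RatMap.subst] using isHomogeneous_X K i
  | succ n ih =>
    intro i
    have h := (f.homogeneous i).aeval (f.subst n) ih
    rw [pow_succ]
    exact h

end Q52.Deg
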