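import Mathlib
import Pool.Agent.Q52.Deg.Rat

set_option autoImplicit false

/-!
Rational self-maps of `ℙ^N` given by endomorphisms of the field `K(x_1, …, x_N)`.
-/

namespace Q52.Deg

open MvPolynomial

variable {K : Type*} [Field K] {N : ℕ}

/-- The function field. -/
abbrev FF (K : Type*) [Field K] (N : ℕ) := FractionRing (MvPolynomial (Fin N) K)

/-- The family `1, x_1, …, x_N`. -/
noncomputable def ξ (K : Type*) [Field K] (N : ℕ) : Fin (N + 1) → FF K N :=
  Fin.cons 1 fun i => algebraMap (MvPolynomial (Fin N) K) (FF K N) (X i)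

@[simp] theorem ξ_zero : ξ K N 0 = 1 := rfl

@[simp] theorem ξ_succ (i : Fin N) :
    ξ K N i.succ = algebraMap (MvPolynomial (Fin N) K) (FF K N) (X i) := rfl

/-- Restriction of a polynomial to the affine chart. -/
noncomputable def δ (K : Type*) [Field K] (N : ℕ) :
    MvPolynomial (Fin (N + 1)) K →ₐ[K] FF K N := aeval (ξ K N)

/-- Scaling of the arguments of a homogeneous polynomial. -/
theorem aeval_mul_homog {σ A : Type*} [CommRing A] [Algebra K A] {P : MvPolynomial σ K} {d : ℕ}
    (hP : P.IsHomogeneous d) (c : A) (y : σ → A) :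
    aeval (fun i => c * y i) P = c ^ d * aeval y P := by
  rw [aeval_def, aeval_def, eval₂_eq, eval₂_eq, Finset.mul_sum]
  refine Finset.sum_congr rfl fun m hm => ?_
  have hdeg : ∑ i ∈ m.support, m i = d := by
    have := hP (mem_support_iff.1 hm)
    rw [← this]
    simp [Finsupp.weight_apply, Finsupp.sum]
  simp_rw [mul_pow]
  rw [Finset.prod_mul_distrib, Finset.prod_pow_eq_pow_sum, hdeg]
  ring

/-- Restriction to the chart is injective on homogeneous polynomials. -/
theorem eq_zero_of_δ {P : MvPolynomial (Fin (N + 1)) K} {d : ℕ} (hP : P.IsHomogeneous d)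
    (h : δ K N P = 0) : P = 0 := by
  set M := FractionRing (MvPolynomial (Fin (N + 1)) K)
  have hdeh : aeval (Fin.cons 1 X : Fin (N + 1) → MvPolynomial (Fin N) K) P = 0 := by
    apply FaithfulSMul.algebraMap_injective (MvPolynomial (Fin N) K) (FF K N)
    rw [map_zero, ← h]
    unfold δ
    have h1 := MvPolynomial.aeval_algebraMap_apply (FF K N)
      (Fin.cons 1 X : Fin (N + 1) → MvPolynomial (Fin N) K) P
    rw [← h1]
    congr 2
    funext i
    refine Fin.cases ?_ (fun j => ?_) i
    · simp [ξ]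
    · simp [ξ]
  set x0 : M := algebraMap (MvPolynomial (Fin (N + 1)) K) M (X 0) with hx0
  have hx00 : x0 ≠ 0 := by
    rw [hx0]
    intro h0
    have := FaithfulSMul.algebraMap_injective (MvPolynomial (Fin (N + 1)) K) M
      (h0.trans (map_zero _).symm)
    exact X_ne_zero _ this
  have h2 : aeval (fun i : Fin N => x0⁻¹ * algebraMap (MvPolynomial (Fin (N + 1)) K) M (X i.succ))
      (aeval (Fin.cons 1 X : Fin (N + 1) → MvPolynomial (Fin N) K) P) = 0 := by
    rw [hdeh, map_zero]
  rw [← AlgHom.comp_apply, comp_aeval] at h2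
  have h3 : (fun i : Fin (N + 1) => aeval (fun i : Fin N => x0⁻¹ *
      algebraMap (MvPolynomial (Fin (N + 1)) K) M (X i.succ))
      ((Fin.cons 1 X : Fin (N + 1) → MvPolynomial (Fin N) K) i)) =
      fun i => x0⁻¹ * algebraMap (MvPolynomial (Fin (N + 1)) K) M (X i) := by
    funext i
    refine Fin.cases ?_ (fun j => ?_) i
    · simp only [Fin.cons_zero, map_one]
      rw [← hx0, inv_mul_cancel₀ hx00]
    · simp
  rw [h3, aeval_mul_homog hP] at h2
  have h4 := (mul_eq_zero.1 h2).resolve_left (pow_ne_zero _ (inv_ne_zero hx00))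
  have h5 : aeval (fun i => algebraMap (MvPolynomial (Fin (N + 1)) K) M (X i)) P =
      algebraMap _ M P := by
    have := MvPolynomial.aeval_algebraMap_apply M
      (X : Fin (N + 1) → MvPolynomial (Fin (N + 1)) K) P
    rw [aeval_X_left_apply] at this
    exact this
  rw [h5] at h4
  exact FaithfulSMul.algebraMap_injective (MvPolynomial (Fin (N + 1)) K) M
    (h4.trans (map_zero _).symm)

/-- Homogenization. -/
noncomputable def homog (d : ℕ) (p : MvPolynomial (Fin N) K) : MvPolynomial (Fin (N + 1)) K :=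
  ∑ k ∈ Finset.range (d + 1), X 0 ^ (d - k) * rename Fin.succ (homogeneousComponent k p)

theorem homog_isHomogeneous (d : ℕ) (p : MvPolynomial (Fin N) K) :
    (homog d p).IsHomogeneous d := by
  apply IsHomogeneous.sum
  intro k hk
  have hk' : k ≤ d := Nat.lt_succ_iff.1 (Finset.mem_range.1 hk)
  have h1 : (X 0 ^ (d - k) : MvPolynomial (Fin (N + 1)) K).IsHomogeneous (d - k) := by
    simpa using (isHomogeneous_X K (0 : Fin (N + 1))).pow (d - k)
  have h2 : (rename Fin.succ (homogeneousComponent k p) :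
      MvPolynomial (Fin (N + 1)) K).IsHomogeneous k :=
    (homogeneousComponent_isHomogeneous k p).rename_isHomogeneous
  have h := h1.mul h2
  rwa [Nat.sub_add_cancel hk'] at h

theorem δ_homog (d : ℕ) (p : MvPolynomial (Fin N) K) (hp : p.totalDegree ≤ d) :
    δ K N (homog d p) = algebraMap (MvPolynomial (Fin N) K) (FF K N) p := by
  unfold homog
  rw [map_sum]
  have h1 : ∀ k ∈ Finset.range (d + 1), δ K N (X 0 ^ (d - k) *
      rename Fin.succ (homogeneousComponent k p)) =
      algebraMap (MvPolynomial (Fin N) K) (FF K N) (homogeneousComponent k p) := by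
    intro k _
    rw [map_mul, map_pow]
    unfold δ
    rw [aeval_X, ξ_zero, one_pow, one_mul, aeval_rename]
    have := MvPolynomial.aeval_algebraMap_apply (FF K N)
      (X : Fin N → MvPolynomial (Fin N) K) (homogeneousComponent k p)
    rw [aeval_X_left_apply] at this
    rw [← this]
    rfl
  rw [Finset.sum_congr rfl h1, ← map_sum]
  congr 1
  have h2 : Finset.range (p.totalDegree + 1) ⊆ Finset.range (d + 1) := by
    intro k hk
    rw [Finset.mem_range] at hk ⊢
    omega
  rw [← Finset.sum_subset h2, sum_homogeneousComponent]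
  intro k _ hk
  rw [Finset.mem_range] at hk
  exact homogeneousComponent_eq_zero _ _ (by omega)

/-! ### Height bounds -/

/-- `HB r d`: the rational function `r` is a quotient of polynomials of degree at most `d`. -/
def HB (r : FF K N) (d : ℕ) : Prop :=
  ∃ n m : MvPolynomial (Fin N) K, m ≠ 0 ∧ n.totalDegree ≤ d ∧ m.totalDegree ≤ d ∧
    r = algebraMap _ (FF K N) n / algebraMap _ (FF K N) m

theorem algebraMap_ne_zero' {m : MvPolynomial (Fin N) K} (hm : m ≠ 0) :
    algebraMap _ (FF K N) m ≠ 0 := by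
  intro h
  exact hm (FaithfulSMul.algebraMap_injective (MvPolynomial (Fin N) K) (FF K N)
    (h.trans (map_zero _).symm))

theorem HB.mono {r : FF K N} {d e : ℕ} (h : HB r d) (hde : d ≤ e) : HB r e := by
  obtain ⟨n, m, hm, h1, h2, h3⟩ := h
  exact ⟨n, m, hm, h1.trans hde, h2.trans hde, h3⟩

theorem HB.exists (r : FF K N) : ∃ d, HB r d := by
  obtain ⟨n, m, hm, h⟩ := IsFractionRing.div_surjective (A := MvPolynomial (Fin N) K) r
  exact ⟨max n.totalDegree m.totalDegree, n, m, nonZeroDivisors.ne_zero hm, le_max_left _ _,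
    le_max_right _ _, h.symm⟩

theorem HB.poly {p : MvPolynomial (Fin N) K} {d : ℕ} (h : p.totalDegree ≤ d) :
    HB (algebraMap _ (FF K N) p) d :=
  ⟨p, 1, one_ne_zero, h, by simp, by simp⟩

theorem HB.const (c : K) (d : ℕ) : HB (algebraMap K (FF K N) c) d := by
  have : algebraMap K (FF K N) c = algebraMap (MvPolynomial (Fin N) K) (FF K N) (C c) := by
    rw [IsScalarTower.algebraMap_apply K (MvPolynomial (Fin N) K) (FF K N)]
    rfl
  rw [this]
  exact HB.poly (by simp)

theorem HB.ofNat (c : ℕ) (d : ℕ) : HB (c : FF K N) d := by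
  have := HB.const (K := K) (N := N) (c : K) d
  rwa [map_natCast] at this

theorem HB.mul {r s : FF K N} {d e : ℕ} (hr : HB r d) (hs : HB s e) : HB (r * s) (d + e) := by
  obtain ⟨n, m, hm, h1, h2, rfl⟩ := hr
  obtain ⟨n', m', hm', h1', h2', rfl⟩ := hs
  refine ⟨n * n', m * m', mul_ne_zero hm hm', (totalDegree_mul _ _).trans (by omega),
    (totalDegree_mul _ _).trans (by omega), ?_⟩
  rw [map_mul, map_mul, div_mul_div_comm]

theorem HB.add {r s : FF K N} {d e : ℕ} (hr : HB r d) (hs : HB s e) : HB (r + s) (d + e) := by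
  obtain ⟨n, m, hm, h1, h2, rfl⟩ := hr
  obtain ⟨n', m', hm', h1', h2', rfl⟩ := hs
  refine ⟨n * m' + m * n', m * m', mul_ne_zero hm hm', ?_,
    (totalDegree_mul _ _).trans (by omega), ?_⟩
  · refine (totalDegree_add _ _).trans (max_le ?_ ?_)
    · exact (totalDegree_mul _ _).trans (by omega)
    · exact (totalDegree_mul _ _).trans (by omega)
  · rw [map_add, map_mul, map_mul, map_mul, div_add_div _ _ (algebraMap_ne_zero' hm)
      (algebraMap_ne_zero' hm')]

theorem HB.neg {r : FF K N} {d : ℕ} (hr : HB r d) : HB (-r) d := by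
  obtain ⟨n, m, hm, h1, h2, rfl⟩ := hr
  exact ⟨-n, m, hm, by rwa [totalDegree_neg], h2, by rw [map_neg, neg_div]⟩

theorem HB.sub {r s : FF K N} {d e : ℕ} (hr : HB r d) (hs : HB s e) : HB (r - s) (d + e) := by
  rw [sub_eq_add_neg]
  exact hr.add hs.neg

theorem HB.inv {r : FF K N} {d : ℕ} (hr : HB r d) : HB r⁻¹ d := by
  obtain ⟨n, m, hm, h1, h2, rfl⟩ := hr
  by_cases hn : n = 0
  · subst hn
    rw [map_zero, zero_div, inv_zero]
    exact ⟨0, 1, one_ne_zero, by simp, by simp, by simp⟩
  · exact ⟨m, n, hn, h2, h1, by rw [inv_div]⟩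

theorem HB.div {r s : FF K N} {d e : ℕ} (hr : HB r d) (hs : HB s e) : HB (r / s) (d + e) := by
  rw [div_eq_mul_inv]
  exact hr.mul hs.inv

theorem HB.pow {r : FF K N} {d : ℕ} (hr : HB r d) (k : ℕ) : HB (r ^ k) (k * d) := by
  induction k with
  | zero =>
    rw [pow_zero]
    simpa using HB.ofNat (K := K) (N := N) 1 (0 * d)
  | succ k ih =>
    rw [pow_succ]
    exact (ih.mul hr).mono (by rw [Nat.succ_mul])

/-! ### Tuples representing a map -/

/-- The tuple `P` represents the point `(y_0 : … : y_N)` of `ℙ^N` over the function field. -/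
def Rep (P : Fin (N + 1) → MvPolynomial (Fin (N + 1)) K) (y : Fin (N + 1) → FF K N) : Prop :=
  ∃ c, c ≠ 0 ∧ ∀ i, δ K N (P i) = c * y i

theorem δ_ne_zero_of_mul {P Q : MvPolynomial (Fin (N + 1)) K} (h : δ K N (P * Q) ≠ 0) :
    δ K N P ≠ 0 := by
  intro h0
  exact h (by rw [map_mul, h0, zero_mul])

theorem Rep.ne_zero {P : Fin (N + 1) → MvPolynomial (Fin (N + 1)) K} {y : Fin (N + 1) → FF K N}
    (h : Rep P y) (hy : y 0 = 1) : δ K N (P 0) ≠ 0 := by
  obtain ⟨c, hc, h⟩ := h
  rw [h, hy, mul_one]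
  exact hc

/-- Dividing out a common factor. -/
theorem Rep.of_mul {P Q : Fin (N + 1) → MvPolynomial (Fin (N + 1)) K} {y : Fin (N + 1) → FF K N}
    {c : MvPolynomial (Fin (N + 1)) K} (h : Rep P y) (hy : y 0 = 1) (hc : ∀ i, P i = c * Q i) :
    Rep Q y := by
  have h0 : δ K N c ≠ 0 := by
    have := h.ne_zero hy
    rw [hc] at this
    exact δ_ne_zero_of_mul this
  obtain ⟨c', hc', h⟩ := h
  refine ⟨c' / δ K N c, div_ne_zero hc' h0, fun i => ?_⟩
  have := h i
  rw [hc, map_mul] at this
  field_simp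
  rw [mul_comm, this]

theorem exists_tuple (r : Fin N → FF K N) (d : Fin N → ℕ) (h : ∀ i, HB (r i) (d i)) :
    ∃ P : Fin (N + 1) → MvPolynomial (Fin (N + 1)) K,
      (∀ i, (P i).IsHomogeneous (∑ i, d i)) ∧ Rep P (Fin.cons 1 r) := by
  classical
  choose n m hm h1 h2 h3 using h
  set D := ∑ i, d i with hD
  have hM0 : (∏ i, m i) ≠ 0 := Finset.prod_ne_zero_iff.2 fun i _ => hm i
  refine ⟨Fin.cons (homog D (∏ i, m i)) fun i => homog D (n i * ∏ j ∈ Finset.univ.erase i, m j),
    ?_, algebraMap _ (FF K N) (∏ i, m i), algebraMap_ne_zero' hM0, ?_⟩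
  · intro i
    refine Fin.cases ?_ (fun j => ?_) i
    · exact homog_isHomogeneous _ _
    · exact homog_isHomogeneous _ _
  · intro i
    refine Fin.cases ?_ (fun j => ?_) i
    · simp only [Fin.cons_zero, mul_one]
      apply δ_homog
      refine (totalDegree_finsetProd _ _).trans ?_
      exact Finset.sum_le_sum fun i _ => h2 i
    · simp only [Fin.cons_succ]
      rw [δ_homog]
      · rw [map_mul, ← Finset.mul_prod_erase Finset.univ m (Finset.mem_univ j), map_mul, h3 j]
        have := algebraMap_ne_zero' (hm j)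
        field_simp
      · refine (totalDegree_mul _ _).trans ?_
        have h4 : (∏ j ∈ Finset.univ.erase j, m j).totalDegree ≤
            ∑ j ∈ Finset.univ.erase j, d j :=
          (totalDegree_finsetProd _ _).trans (Finset.sum_le_sum fun i _ => h2 i)
        have h5 := Finset.add_sum_erase Finset.univ d (Finset.mem_univ j)
        have h6 := h1 j
        omega

/-- The reduced tuple has the smallest degree. -/
theorem RatMap.degree_le_of_rep (g : RatMap K N) (P : Fin (N + 1) → MvPolynomial (Fin (N + 1)) K)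
    (e : ℕ) (hP : ∀ i, (P i).IsHomogeneous e) (y : Fin (N + 1) → FF K N) (hy : y 0 = 1)
    (hg : Rep g.poly y) (hPy : Rep P y) : g.degree ≤ e := by
  have hP0 : P 0 ≠ 0 := by
    intro h
    exact hPy.ne_zero hy (by rw [h, map_zero])
  apply g.degree_le P e hP (P 0) (g.poly 0) hP0
  intro i
  obtain ⟨c, hc, h⟩ := hg
  obtain ⟨c', hc', h'⟩ := hPy
  rw [← sub_eq_zero]
  have hhom : (P 0 * g.poly i - g.poly 0 * P i).IsHomogeneous (e + g.degree) := by
    apply IsHomogeneous.sub
    · exact (hP 0).mul (g.homogeneous i)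
    · have h3 := (g.homogeneous 0).mul (hP i)
      rwa [add_comm g.degree e] at h3
  apply eq_zero_of_δ hhom
  rw [map_sub, map_mul, map_mul, h, h, h', h', hy]
  ring

theorem exists_ratMap (r : Fin N → FF K N) : ∃ g : RatMap K N, Rep g.poly (Fin.cons 1 r) := by
  choose d hd using fun i => HB.exists (r i)
  obtain ⟨P, hP, hrep⟩ := exists_tuple r d hd
  have hP0 : P 0 ≠ 0 := by
    intro h
    exact hrep.ne_zero rfl (by rw [h, map_zero])
  obtain ⟨c, g, hc, hg⟩ := exists_reduced P _ hP 0 hP0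
  exact ⟨g, hrep.of_mul rfl hg⟩

/-- The degree of the reduced tuple is bounded by the heights. -/
theorem RatMap.degree_le_of_HB (g : RatMap K N) (r : Fin N → FF K N)
    (hg : Rep g.poly (Fin.cons 1 r)) (d : Fin N → ℕ) (h : ∀ i, HB (r i) (d i)) :
    g.degree ≤ ∑ i, d i := by
  obtain ⟨P, hP, hrep⟩ := exists_tuple r d h
  exact g.degree_le_of_rep P _ hP _ rfl hg hrep

theorem totalDegree_dehom (P : MvPolynomial (Fin (N + 1)) K) (d : ℕ) (hP : P.IsHomogeneous d) :
    (aeval (Fin.cons 1 X : Fin (N + 1) → MvPolynomial (Fin N) K) P).totalDegree ≤ d := by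
  rw [aeval_def, eval₂_eq]
  refine (totalDegree_finsetSum _ _).trans (Finset.sup_le fun m hm => ?_)
  have hdeg : ∑ i ∈ m.support, m i = d := by
    have := hP (mem_support_iff.1 hm)
    rw [← this]
    simp [Finsupp.weight_apply, Finsupp.sum]
  refine (totalDegree_mul _ _).trans ?_
  have h1 : (algebraMap K (MvPolynomial (Fin N) K) (coeff m P)).totalDegree = 0 :=
    totalDegree_C _
  rw [h1, zero_add]
  refine (totalDegree_finsetProd _ _).trans ?_
  rw [← hdeg]
  refine Finset.sum_le_sum fun i _ => ?_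
  refine (totalDegree_pow _ _).trans ?_
  have h2 : ((Fin.cons 1 X : Fin (N + 1) → MvPolynomial (Fin N) K) i).totalDegree ≤ 1 := by
    refine Fin.cases ?_ (fun j => ?_) i
    · simp
    · simp
  calc m i * _ ≤ m i * 1 := Nat.mul_le_mul_left _ h2
    _ = m i := mul_one _

theorem δ_eq (P : MvPolynomial (Fin (N + 1)) K) : δ K N P =
    algebraMap _ (FF K N) (aeval (Fin.cons 1 X : Fin (N + 1) → MvPolynomial (Fin N) K) P) := by
  unfold δ
  have h1 := MvPolynomial.aeval_algebraMap_apply (FF K N)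
    (Fin.cons 1 X : Fin (N + 1) → MvPolynomial (Fin N) K) P
  rw [← h1]
  congr 2
  funext i
  refine Fin.cases ?_ (fun j => ?_) i
  · simp [ξ]
  · simp [ξ]

/-- The coordinates of a map of degree `d` have height at most `d`. -/
theorem RatMap.HB_of_rep (g : RatMap K N) (y : Fin (N + 1) → FF K N) (hy : y 0 = 1)
    (hg : Rep g.poly y) (i : Fin (N + 1)) : HB (y i) g.degree := by
  obtain ⟨c, hc, h⟩ := hg
  refine ⟨aeval (Fin.cons 1 X : Fin (N + 1) → MvPolynomial (Fin N) K) (g.poly i),
    aeval (Fin.cons 1 X : Fin (N + 1) → MvPolynomial (Fin N) K) (g.poly 0), ?_,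
    totalDegree_dehom _ _ (g.homogeneous i), totalDegree_dehom _ _ (g.homogeneous 0), ?_⟩
  · intro h0
    have h1 := δ_eq (g.poly 0)
    rw [h0, map_zero, h, hy, mul_one] at h1
    exact hc h1
  · rw [← δ_eq, ← δ_eq, h, h, hy]
    field_simp

end Q52.Deg
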