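import Mathlib
import Pool.Agent.Q52.Deg.Func

set_option autoImplicit false

/-!
Iterates of the rational map given by an endomorphism of the function field.
-/

namespace Q52.Deg

open MvPolynomial

variable {K : Type*} [Field K] {N : ℕ}

/-- The family `φ (1), φ (x_1), …, φ (x_N)`. -/
noncomputable def img (φ : FF K N →ₐ[K] FF K N) (i : Fin (N + 1)) : FF K N := φ (ξ K N i)

@[simp] theorem img_zero (φ : FF K N →ₐ[K] FF K N) : img φ 0 = 1 := by
  simp [img]

/-- The variables as rational functions. -/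
noncomputable def var (K : Type*) [Field K] (N : ℕ) (i : Fin N) : FF K N :=
  algebraMap (MvPolynomial (Fin N) K) (FF K N) (X i)

theorem img_eq_cons (φ : FF K N →ₐ[K] FF K N) :
    img φ = Fin.cons 1 fun i => φ (var K N i) := by
  funext i
  refine Fin.cases ?_ (fun j => ?_) i
  · simp
  · simp [img, var]

theorem exists_ratMap_of_hom (φ : FF K N →ₐ[K] FF K N) : ∃ g : RatMap K N, Rep g.poly (img φ) := by
  rw [img_eq_cons]
  exact exists_ratMap _

/-- Composition of tuples. -/
theorem Rep.bind {P Q : Fin (N + 1) → MvPolynomial (Fin (N + 1)) K} {φ ψ : FF K N →ₐ[K] FF K N}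
    {d : ℕ} (hP : Rep P (img φ)) (hQ : Rep Q (img ψ)) (hd : ∀ i, (Q i).IsHomogeneous d) :
    Rep (fun i => bind₁ P (Q i)) (img (φ.comp ψ)) := by
  obtain ⟨c, hc, h⟩ := hP
  obtain ⟨c', hc', h'⟩ := hQ
  have hφinj : Function.Injective φ := (φ : FF K N →+* FF K N).injective
  refine ⟨c ^ d * φ c', mul_ne_zero (pow_ne_zero _ hc) ?_, fun i => ?_⟩
  · intro h0
    exact hc' (hφinj (h0.trans (map_zero φ).symm))
  · have h1 : δ K N (bind₁ P (Q i)) = aeval (fun j => c * img φ j) (Q i) := by
      unfold δ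
      rw [aeval_bind₁]
      congr 2
      funext j
      exact h j
    rw [h1, aeval_mul_homog (hd i)]
    have h2 : aeval (img φ) (Q i) = φ (δ K N (Q i)) := by
      unfold δ
      rw [← AlgHom.comp_apply, comp_aeval]
      rfl
    rw [h2, h', map_mul]
    simp only [img, AlgHom.comp_apply]
    ring

/-- Dominance. -/
theorem RatMap.dominant_of_rep (hN : 1 ≤ N) (g : RatMap K N) (φ : FF K N →ₐ[K] FF K N)
    (hg : Rep g.poly (img φ)) : g.Dominant := by
  obtain ⟨c, hc, h⟩ := hg
  have hφinj : Function.Injective φ := (φ : FF K N →+* FF K N).injective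
  unfold RatMap.Dominant
  rw [algebraicIndependent_iff_injective_aeval, injective_iff_map_eq_zero]
  -- homogeneous relations
  have hhom : ∀ (k : ℕ) (G : MvPolynomial (Fin (N + 1)) K), G.IsHomogeneous k →
      aeval g.poly G = 0 → G = 0 := by
    intro k G hG hGe
    have h1 : δ K N (aeval g.poly G) = 0 := by rw [hGe, map_zero]
    have h2 : δ K N (aeval g.poly G) = aeval (fun j => c * img φ j) G := by
      unfold δ
      rw [← AlgHom.comp_apply, comp_aeval]
      congr 2
      funext j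
      exact h j
    rw [h2, aeval_mul_homog hG] at h1
    have h3 := (mul_eq_zero.1 h1).resolve_left (pow_ne_zero _ hc)
    have h4 : aeval (img φ) G = φ (δ K N G) := by
      unfold δ
      rw [← AlgHom.comp_apply, comp_aeval]
      rfl
    rw [h4] at h3
    exact eq_zero_of_δ hG (hφinj (h3.trans (map_zero φ).symm))
  -- the degree is positive
  have hdeg : 1 ≤ g.degree := by
    by_contra hlt
    have h0 : g.degree = 0 := by omega
    obtain ⟨i⟩ : Nonempty (Fin N) := ⟨⟨0, by omega⟩⟩
    have hconst : ∀ j, ∃ a : K, g.poly j = C a := by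
      intro j
      have := g.homogeneous j
      rw [h0] at this
      exact ⟨_, (totalDegree_eq_zero_iff_eq_C).1 (Nat.le_zero.1 this.totalDegree_le)⟩
    obtain ⟨a, ha⟩ := hconst 0
    obtain ⟨b, hb⟩ := hconst i.succ
    have h1 : (C a * X i.succ - C b * X 0 : MvPolynomial (Fin (N + 1)) K) = 0 := by
      apply hhom 1
      · apply IsHomogeneous.sub
        · simpa using (isHomogeneous_C (Fin (N + 1)) a).mul (isHomogeneous_X K i.succ)
        · simpa using (isHomogeneous_C (Fin (N + 1)) b).mul (isHomogeneous_X K (0 : Fin (N + 1)))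
      · rw [map_sub, map_mul, map_mul, aeval_X, aeval_X, ha, hb]
        simp [mul_comm, algebraMap_eq]
    have ha0 : a ≠ 0 := by
      intro h2
      have := h 0
      rw [ha, h2, C_0, map_zero, img_zero, mul_one] at this
      exact hc this.symm
    have h2 := congrArg (eval (Fin.cons 0 (fun _ => 1) : Fin (N + 1) → K)) h1
    simp at h2
    exact ha0 h2
  intro G hG
  -- homogeneous components
  have hcomp : ∀ k, aeval g.poly (homogeneousComponent k G) = 0 := by
    intro k
    have hsum : ∑ i ∈ Finset.range (G.totalDegree + 1),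
        aeval g.poly (homogeneousComponent i G) = 0 := by
      rw [← map_sum, sum_homogeneousComponent, hG]
    have hhomc : ∀ i, (aeval g.poly (homogeneousComponent i G)).IsHomogeneous (g.degree * i) :=
      fun i => (homogeneousComponent_isHomogeneous i G).aeval g.poly g.homogeneous
    by_cases hk : k ∈ Finset.range (G.totalDegree + 1)
    · have h1 := congrArg (homogeneousComponent (g.degree * k)) hsum
      rw [map_sum, map_zero] at h1
      rw [Finset.sum_eq_single_of_mem k hk] at h1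
      · rwa [homogeneousComponent_of_mem ((mem_homogeneousSubmodule _ _).2 (hhomc k)),
          if_pos rfl] at h1
      · intro j _ hjk
        rw [homogeneousComponent_of_mem ((mem_homogeneousSubmodule _ _).2 (hhomc j)), if_neg]
        intro h2
        exact hjk (Nat.eq_of_mul_eq_mul_left hdeg h2).symm
    · rw [homogeneousComponent_eq_zero, map_zero]
      rw [Finset.mem_range] at hk
      omega
  have h0 : ∀ k, homogeneousComponent k G = 0 := fun k =>
    hhom k _ (homogeneousComponent_isHomogeneous k G) (hcomp k)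
  rw [← sum_homogeneousComponent G]
  exact Finset.sum_eq_zero fun k _ => h0 k

/-- The iterates. -/
theorem rep_subst (f : RatMap K N) (φ : FF K N →ₐ[K] FF K N) (hf : Rep f.poly (img φ)) (n : ℕ) :
    Rep (f.subst n) (img (φ ^ n)) := by
  induction n with
  | zero =>
    refine ⟨1, one_ne_zero, fun i => ?_⟩
    simp only [RatMap.subst, img, pow_zero, AlgHom.one_apply, one_mul]
    unfold δ
    rw [aeval_X]
  | succ n ih =>
    have h := ih.bind hf f.homogeneous
    rw [pow_succ]
    exact h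

theorem exists_iterate (f : RatMap K N) (φ : FF K N →ₐ[K] FF K N) (hf : Rep f.poly (img φ))
    (n : ℕ) : ∃ g, f.IsIterate n g := by
  have h := rep_subst f φ hf n
  have h0 : f.subst n 0 ≠ 0 := by
    intro h1
    exact h.ne_zero (img_zero _) (by rw [h1, map_zero])
  obtain ⟨c, g, hc, hg⟩ := exists_reduced (f.subst n) _ (f.subst_homogeneous n) 0 h0
  exact ⟨g, c, hc, hg⟩

theorem rep_of_isIterate (f : RatMap K N) (φ : FF K N →ₐ[K] FF K N) (hf : Rep f.poly (img φ))
    (n : ℕ) (g : RatMap K N) (hg : f.IsIterate n g) : Rep g.poly (img (φ ^ n)) := by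
  obtain ⟨c, _, h⟩ := hg
  exact (rep_subst f φ hf n).of_mul (img_zero _) h

/-- The degree sequence. -/
noncomputable def degSeq (φ : FF K N →ₐ[K] FF K N) (n : ℕ) : ℕ :=
  (exists_ratMap_of_hom (φ ^ n)).choose.degree

theorem degree_eq_degSeq (φ : FF K N →ₐ[K] FF K N) (n : ℕ) (g : RatMap K N)
    (hg : Rep g.poly (img (φ ^ n))) : g.degree = degSeq φ n := by
  have h := (exists_ratMap_of_hom (φ ^ n)).choose_spec
  exact le_antisymm (g.degree_le_of_rep _ _ (RatMap.homogeneous _) _ (img_zero _) hg h)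
    (RatMap.degree_le_of_rep _ _ _ g.homogeneous _ (img_zero _) h hg)

theorem isDegreeSequence (f : RatMap K N) (φ : FF K N →ₐ[K] FF K N) (hf : Rep f.poly (img φ)) :
    f.IsDegreeSequence (degSeq φ) := by
  intro n _
  refine ⟨exists_iterate f φ hf n, fun g hg => ?_⟩
  exact degree_eq_degSeq φ n g (rep_of_isIterate f φ hf n g hg)

theorem degSeq_add_le (φ : FF K N →ₐ[K] FF K N) (m n : ℕ) :
    degSeq φ (m + n) ≤ degSeq φ m * degSeq φ n := by
  obtain ⟨g, hg⟩ := exists_ratMap_of_hom (φ ^ (m + n))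
  obtain ⟨g₁, hg₁⟩ := exists_ratMap_of_hom (φ ^ m)
  obtain ⟨g₂, hg₂⟩ := exists_ratMap_of_hom (φ ^ n)
  rw [← degree_eq_degSeq φ _ g hg, ← degree_eq_degSeq φ _ g₁ hg₁, ← degree_eq_degSeq φ _ g₂ hg₂]
  have h := hg₁.bind hg₂ g₂.homogeneous
  have h2 : (φ ^ m).comp (φ ^ n) = φ ^ (m + n) := by
    rw [pow_add]
    rfl
  rw [h2] at h
  exact g.degree_le_of_rep _ _ (fun i => (g₂.homogeneous i).aeval g₁.poly g₁.homogeneous) _
    (img_zero _) hg h

theorem degSeq_pos (hN : 1 ≤ N) (φ : FF K N →ₐ[K] FF K N) (n : ℕ) : 1 ≤ degSeq φ n := by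
  obtain ⟨g, hg⟩ := exists_ratMap_of_hom (φ ^ n)
  rw [← degree_eq_degSeq φ _ g hg]
  by_contra hlt
  have h0 : g.degree = 0 := by omega
  have hdom := g.dominant_of_rep hN (φ ^ n) hg
  have hconst : ∀ j, ∃ a : K, g.poly j = C a := by
    intro j
    have := g.homogeneous j
    rw [h0] at this
    exact ⟨_, (totalDegree_eq_zero_iff_eq_C).1 (Nat.le_zero.1 this.totalDegree_le)⟩
  obtain ⟨a, ha⟩ := hconst 0
  have h1 := hdom.transcendental 0
  rw [ha] at h1
  exact h1 (isAlgebraic_algebraMap a)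

theorem HB_pow (φ : FF K N →ₐ[K] FF K N) (n : ℕ) (i : Fin N) :
    HB ((φ ^ n) (var K N i)) (degSeq φ n) := by
  obtain ⟨g, hg⟩ := exists_ratMap_of_hom (φ ^ n)
  rw [← degree_eq_degSeq φ _ g hg]
  exact g.HB_of_rep _ (img_zero _) hg i.succ

theorem degSeq_le (φ : FF K N →ₐ[K] FF K N) (n : ℕ) (d : Fin N → ℕ)
    (h : ∀ i, HB ((φ ^ n) (var K N i)) (d i)) : degSeq φ n ≤ ∑ i, d i := by
  obtain ⟨g, hg⟩ := exists_ratMap_of_hom (φ ^ n)
  rw [← degree_eq_degSeq φ _ g hg]
  rw [img_eq_cons] at hg
  exact g.degree_le_of_HB _ hg d h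

/-! ### The dynamical degree -/

open Filter Topology

/-- If the degrees grow at most exponentially in `j` along `n = 2 ^ j`, then the dynamical degree
is one. -/
theorem tendsto_degSeq (hN : 1 ≤ N) (φ : FF K N →ₐ[K] FF K N) (c C : ℕ) (hc : 1 ≤ c) (hC : 1 ≤ C)
    (h : ∀ j, degSeq φ (2 ^ j) ≤ c * C ^ j) :
    Tendsto (fun n : ℕ => ((degSeq φ n : ℝ)) ^ ((1 : ℝ) / n)) atTop (𝓝 1) := by
  set u : ℕ → ℝ := fun n => Real.log (degSeq φ n) with hu
  have hpos : ∀ n, (1 : ℝ) ≤ degSeq φ n := fun n => by exact_mod_cast degSeq_pos hN φ n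
  have hsub : Subadditive u := by
    intro m n
    simp only [hu]
    rw [← Real.log_mul (by linarith [hpos m]) (by linarith [hpos n])]
    apply Real.log_le_log (by linarith [hpos (m + n)])
    exact_mod_cast degSeq_add_le φ m n
  have hu0 : ∀ n, 0 ≤ u n := fun n => Real.log_nonneg (hpos n)
  have hbdd : BddBelow (Set.range fun n => u n / n) := by
    refine ⟨0, ?_⟩
    rintro _ ⟨n, rfl⟩
    exact div_nonneg (hu0 n) (Nat.cast_nonneg _)
  have hlim := hsub.tendsto_lim hbdd
  have h2 : Tendsto (fun j : ℕ => 2 ^ j) atTop (atTop : Filter ℕ) :=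
    tendsto_pow_atTop_atTop_of_one_lt (by norm_num)
  have hlim2 := hlim.comp h2
  have hz : Tendsto (fun j : ℕ => u (2 ^ j) / ((2 ^ j : ℕ) : ℝ)) atTop (𝓝 0) := by
    have hupper : ∀ j : ℕ, u (2 ^ j) / ((2 ^ j : ℕ) : ℝ) ≤
        Real.log c * (1 / 2) ^ j + Real.log C * (j * (1 / 2) ^ j) := by
      intro j
      have h3 : u (2 ^ j) ≤ Real.log c + j * Real.log C := by
        simp only [hu]
        rw [← Real.log_pow, ← Real.log_mul (by positivity) (by positivity)]
        apply Real.log_le_log (by linarith [hpos (2 ^ j)])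
        exact_mod_cast h j
      have h4 : ((2 ^ j : ℕ) : ℝ) = 2 ^ j := by push_cast; rfl
      rw [h4, div_le_iff₀ (by positivity)]
      have h5 : ((1 : ℝ) / 2) ^ j * 2 ^ j = 1 := by
        rw [← mul_pow]
        norm_num
      calc u (2 ^ j) ≤ Real.log c + j * Real.log C := h3
        _ = Real.log c * ((1 / 2) ^ j * 2 ^ j) + Real.log C * (j * ((1 / 2) ^ j * 2 ^ j)) := by
          rw [h5]; ring
        _ = (Real.log c * (1 / 2) ^ j + Real.log C * (j * (1 / 2) ^ j)) * 2 ^ j := by ring
    have hlower : ∀ j : ℕ, 0 ≤ u (2 ^ j) / ((2 ^ j : ℕ) : ℝ) := fun j =>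
      div_nonneg (hu0 _) (Nat.cast_nonneg _)
    refine squeeze_zero hlower hupper ?_
    have e1 : Tendsto (fun j : ℕ => ((1 : ℝ) / 2) ^ j) atTop (𝓝 0) :=
      tendsto_pow_atTop_nhds_zero_of_lt_one (by norm_num) (by norm_num)
    have e2 : Tendsto (fun j : ℕ => (j : ℝ) * (1 / 2) ^ j) atTop (𝓝 0) :=
      tendsto_self_mul_const_pow_of_lt_one (by norm_num) (by norm_num)
    have := (e1.const_mul (Real.log c)).add (e2.const_mul (Real.log C))
    simpa using this
  have hlim0 : hsub.lim = 0 := tendsto_nhds_unique hlim2 hz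
  rw [hlim0] at hlim
  have hexp := (Real.continuous_exp.tendsto 0).comp hlim
  rw [Real.exp_zero] at hexp
  refine hexp.congr fun n => ?_
  simp only [Function.comp, hu]
  rw [Real.rpow_def_of_pos (by linarith [hpos n])]
  congr 1
  ring

end Q52.Deg
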