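import Mathlib
import Pool.Agent.Q52.Deg.Func
import Pool.Agent.Q52.Deg.Base

set_option autoImplicit false

/-!
Specialization of rational functions at a point with coordinates in another field.
-/

namespace Q52.Deg

open MvPolynomial

variable {K : Type*} [Field K] {N : ℕ} {F : Type*} [Field F] [Algebra K F]

/-- `r` is defined at the point `y` and takes the value `r'`. -/
def Red (y : Fin N → F) (r : FF K N) (r' : F) : Prop :=
  ∃ n m : MvPolynomial (Fin N) K, aeval y m ≠ 0 ∧
    r = algebraMap _ (FF K N) n / algebraMap _ (FF K N) m ∧ r' = aeval y n / aeval y m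

variable {y : Fin N → F}

theorem ne_zero_of_aeval {m : MvPolynomial (Fin N) K} (h : aeval y m ≠ 0) : m ≠ 0 := by
  rintro rfl
  exact h (map_zero _)

theorem Red.poly (p : MvPolynomial (Fin N) K) :
    Red y (algebraMap _ (FF K N) p) (aeval y p) :=
  ⟨p, 1, by simp, by simp, by simp⟩

theorem Red.add {r s : FF K N} {r' s' : F} (hr : Red y r r') (hs : Red y s s') :
    Red y (r + s) (r' + s') := by
  obtain ⟨n, m, hm, rfl, rfl⟩ := hr
  obtain ⟨n', m', hm', rfl, rfl⟩ := hs
  refine ⟨n * m' + m * n', m * m', ?_, ?_, ?_⟩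
  · rw [map_mul]
    exact mul_ne_zero hm hm'
  · rw [map_add, map_mul, map_mul, map_mul, div_add_div _ _
      (algebraMap_ne_zero' (ne_zero_of_aeval hm)) (algebraMap_ne_zero' (ne_zero_of_aeval hm'))]
  · rw [map_add, map_mul, map_mul, map_mul, div_add_div _ _ hm hm']

theorem Red.mul {r s : FF K N} {r' s' : F} (hr : Red y r r') (hs : Red y s s') :
    Red y (r * s) (r' * s') := by
  obtain ⟨n, m, hm, rfl, rfl⟩ := hr
  obtain ⟨n', m', hm', rfl, rfl⟩ := hs
  refine ⟨n * n', m * m', ?_, ?_, ?_⟩
  · rw [map_mul]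
    exact mul_ne_zero hm hm'
  · rw [map_mul, map_mul, div_mul_div_comm]
  · rw [map_mul, map_mul, div_mul_div_comm]

theorem Red.neg {r : FF K N} {r' : F} (hr : Red y r r') : Red y (-r) (-r') := by
  obtain ⟨n, m, hm, rfl, rfl⟩ := hr
  exact ⟨-n, m, hm, by rw [map_neg, neg_div], by rw [map_neg, neg_div]⟩

theorem Red.sub {r s : FF K N} {r' s' : F} (hr : Red y r r') (hs : Red y s s') :
    Red y (r - s) (r' - s') := by
  rw [sub_eq_add_neg, sub_eq_add_neg]
  exact hr.add hs.neg

theorem Red.inv {r : FF K N} {r' : F} (hr : Red y r r') (h0 : r' ≠ 0) : Red y r⁻¹ r'⁻¹ := by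
  obtain ⟨n, m, hm, rfl, rfl⟩ := hr
  have hn : aeval y n ≠ 0 := by
    intro h
    rw [h, zero_div] at h0
    exact h0 rfl
  exact ⟨m, n, hn, by rw [inv_div], by rw [inv_div]⟩

theorem Red.div {r s : FF K N} {r' s' : F} (hr : Red y r r') (hs : Red y s s') (h0 : s' ≠ 0) :
    Red y (r / s) (r' / s') := by
  rw [div_eq_mul_inv, div_eq_mul_inv]
  exact hr.mul (hs.inv h0)

theorem Red.pow {r : FF K N} {r' : F} (hr : Red y r r') (k : ℕ) : Red y (r ^ k) (r' ^ k) := by
  obtain ⟨n, m, hm, rfl, rfl⟩ := hr
  refine ⟨n ^ k, m ^ k, ?_, ?_, ?_⟩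
  · rw [map_pow]
    exact pow_ne_zero _ hm
  · rw [map_pow, map_pow, div_pow]
  · rw [map_pow, map_pow, div_pow]

theorem Red.nat (n : ℕ) : Red y (n : FF K N) (n : F) := by
  have := Red.poly (y := y) (n : MvPolynomial (Fin N) K)
  simpa using this

theorem Red.one : Red y (1 : FF K N) (1 : F) := by
  have := Red.poly (y := y) (1 : MvPolynomial (Fin N) K)
  simpa using this

theorem Red.const (c : K) : Red y (algebraMap K (FF K N) c) (algebraMap K F c) := by
  have := Red.poly (y := y) (C c : MvPolynomial (Fin N) K)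
  rw [aeval_C] at this
  have e : algebraMap (MvPolynomial (Fin N) K) (FF K N) (C c) = algebraMap K (FF K N) c := by
    rw [IsScalarTower.algebraMap_apply K (MvPolynomial (Fin N) K) (FF K N)]
    rfl
  rwa [e] at this

/-- The value is unique. -/
theorem Red.unique {r : FF K N} {a b : F} (ha : Red y r a) (hb : Red y r b) : a = b := by
  obtain ⟨n, m, hm, h1, rfl⟩ := ha
  obtain ⟨n', m', hm', h2, rfl⟩ := hb
  rw [h1, div_eq_div_iff (algebraMap_ne_zero' (ne_zero_of_aeval hm))
    (algebraMap_ne_zero' (ne_zero_of_aeval hm')), ← map_mul, ← map_mul] at h2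
  have h3 := FaithfulSMul.algebraMap_injective (MvPolynomial (Fin N) K) (FF K N) h2
  rw [div_eq_div_iff hm hm', ← map_mul, ← map_mul, h3]

theorem Red.ne {r s : FF K N} {a b : F} (ha : Red y r a) (hb : Red y s b) (h : a ≠ b) : r ≠ s := by
  rintro rfl
  exact h (ha.unique hb)

/-- The value of a polynomial expression. -/
theorem Red.mvAeval {M : ℕ} {r : Fin M → FF K N} {r' : Fin M → F} (h : ∀ i, Red y (r i) (r' i))
    (p : MvPolynomial (Fin M) K) :
    Red y (MvPolynomial.aeval r p) (MvPolynomial.aeval r' p) := by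
  induction p using MvPolynomial.induction_on with
  | C a =>
    rw [MvPolynomial.aeval_C, MvPolynomial.aeval_C]
    exact Red.const a
  | add p q hp hq =>
    rw [map_add, map_add]
    exact hp.add hq
  | mul_X p i hp =>
    rw [map_mul, map_mul, MvPolynomial.aeval_X, MvPolynomial.aeval_X]
    exact hp.mul (h i)

/-- The value of a one-variable polynomial. -/
theorem Red.polyAeval {r : FF K N} {r' : F} (h : Red y r r') (p : Polynomial K) :
    Red y (Polynomial.aeval r p) (Polynomial.aeval r' p) := by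
  induction p using Polynomial.induction_on' with
  | add p q hp hq =>
    rw [map_add, map_add]
    exact hp.add hq
  | monomial n a =>
    rw [Polynomial.aeval_monomial, Polynomial.aeval_monomial]
    exact (Red.const a).mul (h.pow n)

/-- A reduced representation. -/
theorem HB.coprime {r : FF K N} {d : ℕ} (h : HB r d) :
    ∃ n m : MvPolynomial (Fin N) K, m ≠ 0 ∧ n.totalDegree ≤ d ∧ m.totalDegree ≤ d ∧
      IsRelPrime n m ∧ r = algebraMap _ (FF K N) n / algebraMap _ (FF K N) m := by
  obtain ⟨n, m, hm, h1, h2, rfl⟩ := h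
  obtain ⟨a, b, c, hab, ha, hb⟩ := UniqueFactorizationMonoid.exists_reduced_factors' n m hm
  have hb0 : b ≠ 0 := by
    rintro rfl
    exact hm (by rw [← hb, mul_zero])
  have hc0 : c ≠ 0 := by
    rintro rfl
    exact hm (by rw [← hb, zero_mul])
  refine ⟨a, b, hb0, ?_, ?_, hab, ?_⟩
  · by_cases ha0 : a = 0
    · rw [ha0]
      simp
    · rw [← ha, totalDegree_mul_of_isDomain hc0 ha0] at h1
      omega
  · rw [← hb, totalDegree_mul_of_isDomain hc0 hb0] at h2
    omega
  · rw [← ha, ← hb, map_mul, map_mul, mul_div_mul_left _ _ (algebraMap_ne_zero' hc0)]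

/-- The value can be computed with a reduced representation. -/
theorem Red.of_coprime {r : FF K N} {r' : F} (h : Red y r r') {n m : MvPolynomial (Fin N) K}
    (hm : m ≠ 0) (hco : IsRelPrime n m)
    (hr : r = algebraMap _ (FF K N) n / algebraMap _ (FF K N) m) :
    aeval y m ≠ 0 ∧ r' = aeval y n / aeval y m := by
  have h0 := h
  obtain ⟨n', m', hm', h1, _⟩ := h0
  rw [hr, div_eq_div_iff (algebraMap_ne_zero' hm) (algebraMap_ne_zero' (ne_zero_of_aeval hm')),
    ← map_mul, ← map_mul] at h1
  have h3 := FaithfulSMul.algebraMap_injective (MvPolynomial (Fin N) K) (FF K N) h1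
  have hdvd : m ∣ m' := by
    have : m ∣ n * m' := ⟨n', by rw [h3, mul_comm]⟩
    exact hco.symm.dvd_of_dvd_mul_left this
  have hm0 : MvPolynomial.aeval y m ≠ 0 := by
    intro h4
    obtain ⟨c, rfl⟩ := hdvd
    rw [map_mul, h4, zero_mul] at hm'
    exact hm' rfl
  exact ⟨hm0, h.unique ⟨n, m, hm0, hr, rfl⟩⟩

/-- Degrees of values of homogeneous polynomials. -/
theorem natDegree_aeval_le {M : ℕ} (P : Fin M → Polynomial K) (h d : ℕ)
    (hP : ∀ i, (P i).natDegree ≤ h) {G : MvPolynomial (Fin M) K} (hG : G.IsHomogeneous d) :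
    (MvPolynomial.aeval P G).natDegree ≤ d * h := by
  rw [aeval_def, eval₂_eq]
  apply Polynomial.natDegree_sum_le_of_forall_le
  intro m hm
  have hdeg : ∑ i ∈ m.support, m i = d := by
    have := hG (mem_support_iff.1 hm)
    rw [← this]
    simp [Finsupp.weight_apply, Finsupp.sum]
  refine (Polynomial.natDegree_C_mul_le _ _).trans ?_
  refine (Polynomial.natDegree_prod_le _ _).trans ?_
  rw [← hdeg, Finset.sum_mul]
  refine Finset.sum_le_sum fun i _ => ?_
  exact Polynomial.natDegree_pow_le.trans (Nat.mul_le_mul_left _ (hP i))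

/-- Transport of height bounds to a rational curve. -/
theorem HB.red {p : Fin N → Polynomial K} {q : Polynomial K} (hq : q ≠ 0) (h : ℕ)
    (hp : ∀ i, (p i).natDegree ≤ h) (hqh : q.natDegree ≤ h) {r : FF K N} {r' : F0 K} {d : ℕ}
    (hr : HB r d) (hred : Red (fun i => algebraMap _ (F0 K) (p i) / algebraMap _ (F0 K) q) r r') :
    HB1 r' (d * h) := by
  obtain ⟨n, m, hm, h1, h2, hco, hrep⟩ := hr.coprime
  obtain ⟨hm0, hr'⟩ := hred.of_coprime hm hco hrep
  set y : Fin N → F0 K := fun i => algebraMap _ (F0 K) (p i) / algebraMap _ (F0 K) q with hy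
  set Q : F0 K := algebraMap _ (F0 K) q with hQ
  have hQ0 : Q ≠ 0 := algebraMap_ne hq
  -- values of the homogenizations
  have key : ∀ g : MvPolynomial (Fin N) K, g.totalDegree ≤ d →
      algebraMap _ (F0 K) (MvPolynomial.aeval (Fin.cons q p : Fin (N + 1) → Polynomial K)
        (homog d g)) = Q ^ d * MvPolynomial.aeval y g := by
    intro g hg
    have e1 : algebraMap _ (F0 K) (MvPolynomial.aeval (Fin.cons q p : Fin (N + 1) → Polynomial K)
        (homog d g)) = MvPolynomial.aeval (fun i => Q *
          (Fin.cons 1 y : Fin (N + 1) → F0 K) i) (homog d g) := by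
      rw [← MvPolynomial.aeval_algebraMap_apply]
      congr 2
      funext i
      refine Fin.cases ?_ (fun j => ?_) i
      · simp [hQ]
      · simp only [Fin.cons_succ, hy, Function.comp]
        field_simp
    rw [e1, aeval_mul_homog (homog_isHomogeneous d g)]
    congr 1
    -- dehomogenization
    have e2 : MvPolynomial.aeval (Fin.cons 1 y : Fin (N + 1) → F0 K) (homog d g) =
        MvPolynomial.aeval y (∑ k ∈ Finset.range (d + 1), homogeneousComponent k g) := by
      unfold homog
      rw [map_sum, map_sum]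
      refine Finset.sum_congr rfl fun k _ => ?_
      rw [map_mul, map_pow, MvPolynomial.aeval_X, Fin.cons_zero, one_pow, one_mul,
        MvPolynomial.aeval_rename]
      rfl
    rw [e2]
    congr 1
    have hsub : Finset.range (g.totalDegree + 1) ⊆ Finset.range (d + 1) := by
      intro k hk
      rw [Finset.mem_range] at hk ⊢
      omega
    rw [← Finset.sum_subset hsub, sum_homogeneousComponent]
    intro k _ hk
    rw [Finset.mem_range] at hk
    exact homogeneousComponent_eq_zero _ _ (by omega)
  have hcons : ∀ i, ((Fin.cons q p : Fin (N + 1) → Polynomial K) i).natDegree ≤ h := by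
    intro i
    refine Fin.cases ?_ (fun j => ?_) i
    · simpa using hqh
    · simpa using hp j
  refine ⟨MvPolynomial.aeval (Fin.cons q p : Fin (N + 1) → Polynomial K) (homog d n),
    MvPolynomial.aeval (Fin.cons q p : Fin (N + 1) → Polynomial K) (homog d m), ?_,
    natDegree_aeval_le _ h d hcons (homog_isHomogeneous d n),
    natDegree_aeval_le _ h d hcons (homog_isHomogeneous d m), ?_⟩
  · intro h0
    have := key m h2
    rw [h0, map_zero] at this
    exact mul_ne_zero (pow_ne_zero _ hQ0) hm0 this.symm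
  · rw [key n h1, key m h2, hr', mul_div_mul_left _ _ (pow_ne_zero _ hQ0)]

end Q52.Deg
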