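import Mathlib
import Pool.Agent.Q52.Deg.Red
import Pool.Agent.Q52.Deg.Iter

set_option autoImplicit false

/-!
The threefold `(1 - a³)(Z² - 1) = (1 - b³)(Y² - 1)` and its birational parametrization by
`(a, b, s)`, `s = (Z - 1) / (Y - 1)`.
-/

namespace Q52.Deg

section field

variable {F : Type*} [Field F]

/-- The coordinate `Y` as a function of `a, b, s`. -/
def Yf (a b s : F) : F :=
  ((1 - b ^ 3) - 2 * (1 - a ^ 3) * s + (1 - a ^ 3) * s ^ 2) / ((1 - a ^ 3) * s ^ 2 - (1 - b ^ 3))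

/-- The coordinate `Z` as a function of `a, b, s`. -/
def Zf (a b s : F) : F := 1 + s * (Yf a b s - 1)

/-- The parameter `u` as a function of `a, b, s`. -/
def uf (a b s : F) : F := (Yf a b s ^ 2 - 1) / (a ^ 3 - 1)

/-- `(a, b, Y, Z, u)` is a point of the threefold in the domain of the parametrization, with
parameters `a, b, s`. -/
structure Good (a b s Y Z u : F) : Prop where
  hu : u ≠ 0
  hY : Y ^ 2 - 1 = u * (a ^ 3 - 1)
  hZ : Z ^ 2 - 1 = u * (b ^ 3 - 1)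
  hs : s * (Y - 1) = Z - 1
  Y1 : Y ≠ 1
  Z1 : Z ≠ 1
  YZ : Y ≠ Z
  Ym : Y ≠ -1

variable {a b s Y Z u : F}

theorem Good.den (h : Good a b s Y Z u) (h2 : (2 : F) ≠ 0) :
    (1 - a ^ 3) * s ^ 2 - (1 - b ^ 3) ≠ 0 := by
  intro h0
  have e1 : u * (1 - a ^ 3) = 1 - Y ^ 2 := by linear_combination h.hY
  have e2 : u * (1 - b ^ 3) = 1 - Z ^ 2 := by linear_combination h.hZ
  have e : ((1 - a ^ 3) * s ^ 2 - (1 - b ^ 3)) * (u * (Y - 1)) = 2 * (Z - 1) * (Y - Z) := by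
    calc ((1 - a ^ 3) * s ^ 2 - (1 - b ^ 3)) * (u * (Y - 1))
        = (u * (1 - a ^ 3) * s ^ 2 - u * (1 - b ^ 3)) * (Y - 1) := by ring
      _ = -(Y + 1) * (s * (Y - 1)) ^ 2 + (Z ^ 2 - 1) * (Y - 1) := by rw [e1, e2]; ring
      _ = 2 * (Z - 1) * (Y - Z) := by rw [h.hs]; ring
  rw [h0, zero_mul] at e
  exact mul_ne_zero (mul_ne_zero h2 (sub_ne_zero.2 h.Z1)) (sub_ne_zero.2 h.YZ) e.symm

theorem Good.a3 (h : Good a b s Y Z u) : a ^ 3 - 1 ≠ 0 := by
  intro h0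
  have e := h.hY
  rw [h0, mul_zero] at e
  have e' : (Y - 1) * (Y + 1) = 0 := by linear_combination e
  rcases mul_eq_zero.1 e' with h1 | h1
  · exact h.Y1 (sub_eq_zero.1 h1)
  · exact h.Ym (eq_neg_of_add_eq_zero_left h1)

theorem Good.eq_Y (h : Good a b s Y Z u) (h2 : (2 : F) ≠ 0) : Yf a b s = Y := by
  unfold Yf
  rw [div_eq_iff (h.den h2)]
  apply mul_left_cancel₀ h.hu
  have e1 : u * (1 - a ^ 3) = 1 - Y ^ 2 := by linear_combination h.hY
  have e2 : u * (1 - b ^ 3) = 1 - Z ^ 2 := by linear_combination h.hZ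
  have e3 : Z = 1 + s * (Y - 1) := by linear_combination -h.hs
  calc u * ((1 - b ^ 3) - 2 * (1 - a ^ 3) * s + (1 - a ^ 3) * s ^ 2)
      = u * (1 - b ^ 3) - 2 * (u * (1 - a ^ 3)) * s + u * (1 - a ^ 3) * s ^ 2 := by ring
    _ = Y * (u * (1 - a ^ 3) * s ^ 2 - u * (1 - b ^ 3)) := by rw [e1, e2, e3]; ring
    _ = u * (Y * ((1 - a ^ 3) * s ^ 2 - (1 - b ^ 3))) := by ring

theorem Good.eq_Z (h : Good a b s Y Z u) (h2 : (2 : F) ≠ 0) : Zf a b s = Z := by
  unfold Zf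
  rw [h.eq_Y h2, h.hs]
  ring

theorem Good.eq_u (h : Good a b s Y Z u) (h2 : (2 : F) ≠ 0) : uf a b s = u := by
  unfold uf
  rw [h.eq_Y h2, h.hY, mul_div_assoc, div_self h.a3, mul_one]

/-- The parametrization satisfies the equation. -/
theorem Zf_sq (h1 : (1 - a ^ 3) * s ^ 2 - (1 - b ^ 3) ≠ 0) (h2 : a ^ 3 - 1 ≠ 0) :
    Zf a b s ^ 2 - 1 = uf a b s * (b ^ 3 - 1) := by
  have hY : Yf a b s * ((1 - a ^ 3) * s ^ 2 - (1 - b ^ 3)) =
      (1 - b ^ 3) - 2 * (1 - a ^ 3) * s + (1 - a ^ 3) * s ^ 2 := div_mul_cancel₀ _ h1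
  unfold Zf uf
  rw [div_mul_eq_mul_div, eq_div_iff h2]
  linear_combination (-(Yf a b s - 1)) * hY

/-- A sufficient condition. -/
theorem Good.of (hu : u ≠ 0) (hY : Y ^ 2 - 1 = u * (a ^ 3 - 1)) (hZ : Z ^ 2 - 1 = u * (b ^ 3 - 1))
    (ha : a ^ 3 ≠ 1) (hab : a ^ 3 ≠ b ^ 3) (hZ1 : Z ≠ 1) :
    Good a b ((Z - 1) / (Y - 1)) Y Z u := by
  have h0 : Y ^ 2 - 1 ≠ 0 := by
    rw [hY]
    exact mul_ne_zero hu (sub_ne_zero.2 ha)
  have hY1 : Y ≠ 1 := by
    rintro rfl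
    exact h0 (by ring)
  refine ⟨hu, hY, hZ, div_mul_cancel₀ _ (sub_ne_zero.2 hY1), hY1, hZ1, ?_, ?_⟩
  · rintro rfl
    rw [hY] at hZ
    have := mul_left_cancel₀ hu hZ
    exact hab (by linear_combination this)
  · rintro rfl
    exact h0 (by ring)

end field

/-! ### Specialization -/

section red

variable {K : Type*} [Field K] {N : ℕ} {F : Type*} [Field F] [Algebra K F]
  {y : Fin N → F} {a b s Y Z u : F} {ra rb rs : FF K N}

theorem Red.two : Red y (2 : FF K N) (2 : F) := by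
  have := Red.nat (y := y) (K := K) 2
  simpa using this

theorem Good.red_den (ha : Red y ra a) (hb : Red y rb b) (hs : Red y rs s) :
    Red y ((1 - ra ^ 3) * rs ^ 2 - (1 - rb ^ 3)) ((1 - a ^ 3) * s ^ 2 - (1 - b ^ 3)) :=
  ((Red.one.sub (ha.pow 3)).mul (hs.pow 2)).sub (Red.one.sub (hb.pow 3))

theorem Good.red_Y (h : Good a b s Y Z u) (h2 : (2 : F) ≠ 0) (ha : Red y ra a) (hb : Red y rb b)
    (hs : Red y rs s) : Red y (Yf ra rb rs) Y := by
  have h1 : Red y (Yf ra rb rs) (Yf a b s) := by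
    refine Red.div ?_ (Good.red_den ha hb hs) (h.den h2)
    exact ((Red.one.sub (hb.pow 3)).sub ((Red.two.mul (Red.one.sub (ha.pow 3))).mul hs)).add
      ((Red.one.sub (ha.pow 3)).mul (hs.pow 2))
  rwa [h.eq_Y h2] at h1

theorem Good.red_Z (h : Good a b s Y Z u) (h2 : (2 : F) ≠ 0) (ha : Red y ra a) (hb : Red y rb b)
    (hs : Red y rs s) : Red y (Zf ra rb rs) Z := by
  have h1 : Red y (Zf ra rb rs) (1 + s * (Y - 1)) :=
    Red.one.add (hs.mul ((h.red_Y h2 ha hb hs).sub Red.one))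
  have h3 : (1 + s * (Y - 1)) = Z := by linear_combination h.hs
  rwa [h3] at h1

theorem Good.red_u (h : Good a b s Y Z u) (h2 : (2 : F) ≠ 0) (ha : Red y ra a) (hb : Red y rb b)
    (hs : Red y rs s) : Red y (uf ra rb rs) u := by
  have h1 : Red y (uf ra rb rs) ((Y ^ 2 - 1) / (a ^ 3 - 1)) :=
    (((h.red_Y h2 ha hb hs).pow 2).sub Red.one).div ((ha.pow 3).sub Red.one) h.a3
  have h3 : ((Y ^ 2 - 1) / (a ^ 3 - 1)) = u := by
    rw [h.hY, mul_div_assoc, div_self h.a3, mul_one]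
  rwa [h3] at h1

/-- The generic point is good if some specialization is. -/
theorem Good.lift (h : Good a b s Y Z u) (h2 : (2 : F) ≠ 0) (ha : Red y ra a) (hb : Red y rb b)
    (hs : Red y rs s) : Good ra rb rs (Yf ra rb rs) (Zf ra rb rs) (uf ra rb rs) := by
  have hden : (1 - ra ^ 3) * rs ^ 2 - (1 - rb ^ 3) ≠ 0 := by
    have h0 : Red y (0 : FF K N) (0 : F) := by
      have := Red.nat (y := y) (K := K) 0
      simpa using this
    exact (Good.red_den ha hb hs).ne h0 (h.den h2)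
  have ha3 : ra ^ 3 - 1 ≠ 0 := by
    have h0 : Red y (0 : FF K N) (0 : F) := by
      have := Red.nat (y := y) (K := K) 0
      simpa using this
    exact ((ha.pow 3).sub Red.one).ne h0 h.a3
  have rY := h.red_Y h2 ha hb hs
  have rZ := h.red_Z h2 ha hb hs
  have ru := h.red_u h2 ha hb hs
  refine ⟨?_, ?_, Zf_sq hden ha3, ?_, rY.ne Red.one h.Y1, rZ.ne Red.one h.Z1, rY.ne rZ h.YZ,
    rY.ne Red.one.neg h.Ym⟩
  · have h0 : Red y (0 : FF K N) (0 : F) := by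
      have := Red.nat (y := y) (K := K) 0
      simpa using this
    exact ru.ne h0 h.hu
  · unfold uf
    rw [div_mul_cancel₀ _ ha3]
  · unfold Zf
    ring

end red

end Q52.Deg
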