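import Mathlib
import Pool.Agent.Q52.Deg.Base

set_option autoImplicit false

/-!
The multiples of the point `σ = (T, T)`.
-/

namespace Q52.Deg

open Polynomial WeierstrassCurve

/-! ### field identities -/

section ident

variable {F : Type*} [Field F]

theorem ident_succ (t P Q : F) (h4 : (4 : F) ≠ 0) (hQ : Q ≠ 0)
    (h : t * P ^ 3 + (1 - t) * Q ^ 3 ≠ 0) :
    P * (t * P ^ 3 - 8 * (1 - t) * Q ^ 3) / (4 * Q * (t * P ^ 3 + (1 - t) * Q ^ 3)) =
      (t * (P / Q) ^ 4 - 8 * (1 - t) * (P / Q)) / (4 * (t * (P / Q) ^ 3 + (1 - t))) := by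
  have h' : t * (P / Q) ^ 3 + (1 - t) ≠ 0 := by
    intro h0
    apply h
    field_simp at h0
    linear_combination h0
  rw [div_eq_div_iff (mul_ne_zero (mul_ne_zero h4 hQ) h) (mul_ne_zero h4 h')]
  field_simp

theorem ident_dblx (t X y : F) (h2 : (2 : F) ≠ 0) (ht : t ≠ 0)
    (h : y ^ 2 = (t * X) ^ 3 + t ^ 2 * (1 - t)) (h' : t * X ^ 3 + (1 - t) ≠ 0) :
    dblx (t * X) y = t * ((t * X ^ 4 - 8 * (1 - t) * X) / (4 * (t * X ^ 3 + (1 - t)))) := by
  unfold dblx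
  have e : (3 * (t * X) ^ 2 / (2 * y)) ^ 2 = 9 * (t * X) ^ 4 / (4 * y ^ 2) := by
    rw [div_pow]
    congr 1 <;> ring
  have h4 : (4 : F) ≠ 0 := by
    have : (4 : F) = 2 ^ 2 := by norm_num
    rw [this]
    exact pow_ne_zero _ h2
  have e2 : (t * X) ^ 3 + t ^ 2 * (1 - t) = t ^ 2 * (t * X ^ 3 + (1 - t)) := by ring
  rw [e, h, e2]
  field_simp
  ring

end ident

variable {K : Type*} [Field K]

/-- the decidability instance used throughout -/
noncomputable local instance : DecidableEq (F0 K) := Classical.decEq _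

variable (h2 : (2 : K) ≠ 0) (h3 : (3 : K) ≠ 0) {s : EP (D0 K) (F0 K)}
  (hs : IsPt (D0 K) s (T K) (T K))

theorem T_eq : algebraMap K[X] (F0 K) X = T K := rfl

include h2 in
theorem two_ne : (2 : F0 K) ≠ 0 := by
  have : ((2 : ℕ) : K) ≠ 0 := by exact_mod_cast h2
  exact_mod_cast natCast_ne this

include h2 in
theorem four_ne : (4 : F0 K) ≠ 0 := by
  have : (4 : F0 K) = 2 ^ 2 := by norm_num
  rw [this]
  exact pow_ne_zero _ (two_ne h2)

include h2 in
theorem TPQ_ne_zero (k : ℕ) : T K * algebraMap K[X] (F0 K) (pq k).1 ^ 3 +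
    (1 - T K) * algebraMap K[X] (F0 K) (pq k).2 ^ 3 ≠ 0 := by
  have hpol : (X * (pq (K := K) k).1 ^ 3 + (1 - X) * (pq (K := K) k).2 ^ 3) ≠ 0 := by
    intro h
    have := congrArg (eval 0) h
    simp at this
    exact (pq_eval_zero h2 k).2 this
  have h1 := algebraMap_ne hpol
  rwa [map_add, map_mul, map_mul, map_sub, map_pow, map_pow, map_one, T_eq] at h1

include h2 in
theorem TX_ne_zero (k : ℕ) : T K * Xk K k ^ 3 + (1 - T K) ≠ 0 := by
  have hq := algebraMap_ne (pq_ne_zero h2 k)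
  intro h0
  apply TPQ_ne_zero h2 k
  unfold Xk at h0
  field_simp at h0
  linear_combination h0

include h2 in
theorem Xk_succ (k : ℕ) : Xk K (k + 1) = (T K * Xk K k ^ 4 - 8 * (1 - T K) * Xk K k) /
    (4 * (T K * Xk K k ^ 3 + (1 - T K))) := by
  have e1 : algebraMap K[X] (F0 K) (pq (k + 1)).1 = algebraMap K[X] (F0 K) (pq k).1 *
      (T K * algebraMap K[X] (F0 K) (pq k).1 ^ 3 -
        8 * (1 - T K) * algebraMap K[X] (F0 K) (pq k).2 ^ 3) := by
    simp only [pq, map_mul, map_sub, map_pow, map_one, map_ofNat, T_eq]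
  have e2 : algebraMap K[X] (F0 K) (pq (k + 1)).2 = 4 * algebraMap K[X] (F0 K) (pq k).2 *
      (T K * algebraMap K[X] (F0 K) (pq k).1 ^ 3 +
        (1 - T K) * algebraMap K[X] (F0 K) (pq k).2 ^ 3) := by
    simp only [pq, map_mul, map_sub, map_add, map_pow, map_one, map_ofNat, T_eq]
  have := ident_succ (T K) (algebraMap K[X] (F0 K) (pq k).1) (algebraMap K[X] (F0 K) (pq k).2)
    (four_ne h2) (algebraMap_ne (pq_ne_zero h2 k)) (TPQ_ne_zero h2 k)
  rw [← e1, ← e2] at this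
  exact this

include h2 hs in
/-- The coordinates of `2 ^ k σ`. -/
theorem isPt_two_pow (k : ℕ) : ∃ y, y ≠ 0 ∧ IsPt (D0 K) (2 ^ k • s) (T K * Xk K k) y := by
  induction k with
  | zero =>
    refine ⟨T K, T_ne_zero, ?_⟩
    have : Xk K 0 = 1 := by simp [Xk, pq]
    rw [this, mul_one, pow_zero, one_smul]
    exact hs
  | succ k ih =>
    obtain ⟨y, hy, hP⟩ := ih
    have h := hP.dbl (two_ne h2) hy
    have heq := hP.equation
    have hX := ident_dblx (T K) (Xk K k) y (two_ne h2) T_ne_zero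
      (by rw [heq]; rfl) (TX_ne_zero h2 k)
    rw [hX, ← Xk_succ h2] at h
    have e : 2 ^ (k + 1) • s = 2 ^ k • s + 2 ^ k • s := by
      rw [pow_succ, mul_comm, mul_smul, two_smul]
    rw [e]
    refine ⟨_, ?_, h⟩
    intro h0
    have heq' := h.equation
    rw [h0] at heq'
    have e2 : (T K * Xk K (k + 1)) ^ 3 + algebraMap (F0 K) (F0 K) (D0 K) =
        T K ^ 2 * (T K * Xk K (k + 1) ^ 3 + (1 - T K)) := by
      simp only [D0, Algebra.algebraMap_self, RingHom.id_apply]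
      ring
    rw [e2] at heq'
    have h5 : (0 : F0 K) ^ 2 = 0 := by norm_num
    rw [h5] at heq'
    exact mul_ne_zero (pow_ne_zero _ T_ne_zero) (TX_ne_zero h2 (k + 1)) heq'.symm

include h2 h3 hs in
theorem not_torsion : ¬ IsOfFinAddOrder s := by
  intro h
  have hfin := h.finite_multiples
  have hinj : Function.Injective fun k : ℕ => 2 ^ k • s := by
    intro k l hkl
    obtain ⟨y, _, hy⟩ := isPt_two_pow h2 hs k
    obtain ⟨y', _, hy'⟩ := isPt_two_pow h2 hs l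
    simp only at hkl
    rw [hkl] at hy
    have := (hy.inj hy').1
    exact Xk_injective h2 h3 (mul_left_cancel₀ T_ne_zero this)
  have hmem : ∀ k : ℕ, 2 ^ k • s ∈ AddSubmonoid.multiples s := fun k =>
    (AddSubmonoid.mem_multiples_iff _ _).2 ⟨2 ^ k, rfl⟩
  exact Set.infinite_of_injective_forall_mem hinj hmem hfin

include h2 h3 hs in
theorem zsmul_ne_zero' {m : ℤ} (hm : m ≠ 0) : m • s ≠ 0 := by
  intro h
  exact not_torsion h2 h3 hs (isOfFinAddOrder_iff_zsmul_eq_zero.2 ⟨m, hm, h⟩)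

include h2 h3 hs in
/-- The first coordinates of different multiples are different. -/
theorem x_ne {m n : ℤ} (h1 : m ≠ n) (h1' : m ≠ -n) {P Q : EP (D0 K) (F0 K)} (hP : P = m • s)
    (hQ : Q = n • s) {x y x' y' : F0 K} (hx : IsPt (D0 K) P x y) (hx' : IsPt (D0 K) Q x' y') :
    x ≠ x' := by
  rintro rfl
  rcases hx.eq_or hx' with h | h
  · rw [hP, hQ] at h
    have : (m - n) • s = 0 := by rw [sub_smul, h, sub_self]
    exact zsmul_ne_zero' h2 h3 hs (sub_ne_zero.2 h1) this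
  · rw [hP, hQ] at h
    have : (m + n) • s = 0 := by rw [add_smul, h, neg_add_cancel]
    exact zsmul_ne_zero' h2 h3 hs (by omega) this

include h2 h3 hs in
theorem exists_coords {m : ℤ} (hm : m ≠ 0) : ∃ x y, IsPt (D0 K) (m • s) x y :=
  (eq_zero_or_isPt (m • s)).resolve_left (zsmul_ne_zero' h2 h3 hs hm)

theorem HB1_D0 : HB1 (D0 K) 3 := by
  have h1 : HB1 (1 - T K) (0 + 1) := by
    have := isHt_HB1.nat (F := F0 K) 1
    rw [Nat.cast_one] at this
    exact isHt_HB1.sub this HB1_T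
  exact isHt_HB1.mul (isHt_HB1.sq HB1_T) h1

/-- Height of the second coordinate. -/
theorem HB1_y {P : EP (D0 K) (F0 K)} {x y : F0 K} (hP : IsPt (D0 K) P x y) {d : ℕ}
    (hx : HB1 x d) : HB1 y (3 * d + 3) := by
  apply HB1.sqrt
  rw [hP.equation]
  exact isHt_HB1.mono (isHt_HB1.add (isHt_HB1.cube hx) HB1_D0) (by omega)

include h2 h3 hs in
/-- Lower bound for the height of `(4 ^ j + 2 ^ (j + 1) - 1) σ`. -/
theorem height_lower (j : ℕ) (hj : 1 ≤ j) {x y : F0 K}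
    (hR : IsPt (D0 K) (-s + (2 ^ (j + 1) • s + 2 ^ (2 * j) • s)) x y) {d : ℕ} (hx : HB1 x d) :
    dg (2 * j) ≤ 768 * (d + dg (j + 1)) + 2305 := by
  obtain ⟨y1, _, h1⟩ := isPt_two_pow h2 hs (j + 1)
  obtain ⟨y2, _, h2'⟩ := isPt_two_pow h2 hs (2 * j)
  have hR' : -s + (2 ^ (j + 1) • s + 2 ^ (2 * j) • s) =
      ((2 : ℤ) ^ (2 * j) + 2 ^ (j + 1) - 1) • s := by
    have e1 : (2 ^ (j + 1) • s : EP (D0 K) (F0 K)) = ((2 : ℤ) ^ (j + 1)) • s := by
      rw [← natCast_zsmul]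
      norm_cast
    have e2 : (2 ^ (2 * j) • s : EP (D0 K) (F0 K)) = ((2 : ℤ) ^ (2 * j)) • s := by
      rw [← natCast_zsmul]
      norm_cast
    rw [e1, e2]
    module
  have hpow1 : (4 : ℤ) ≤ 2 ^ (j + 1) := by
    calc (4 : ℤ) = 2 ^ 2 := by norm_num
      _ ≤ 2 ^ (j + 1) := pow_le_pow_right₀ (by norm_num) (by omega)
  have hpow2 : (4 : ℤ) ≤ 2 ^ (2 * j) := by
    calc (4 : ℤ) = 2 ^ 2 := by norm_num
      _ ≤ 2 ^ (2 * j) := pow_le_pow_right₀ (by norm_num) (by omega)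
  have e1 : (2 ^ (j + 1) • s : EP (D0 K) (F0 K)) = ((2 : ℤ) ^ (j + 1)) • s := by
    rw [← natCast_zsmul]
    norm_cast
  have e2 : (2 ^ (2 * j) • s : EP (D0 K) (F0 K)) = ((2 : ℤ) ^ (2 * j)) • s := by
    rw [← natCast_zsmul]
    norm_cast
  -- first addition
  have hneg := h1.neg
  have hne1 : x ≠ T K * Xk K (j + 1) := by
    refine x_ne h2 h3 hs (m := (2 : ℤ) ^ (2 * j) + 2 ^ (j + 1) - 1) (n := 2 ^ (j + 1)) ?_ ?_ hR' e1
      hR h1
    · omega
    · omega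
  have hA := hR.add hneg hne1
  have hAeq : -s + (2 ^ (j + 1) • s + 2 ^ (2 * j) • s) + -(2 ^ (j + 1) • s) =
      ((2 : ℤ) ^ (2 * j) - 1) • s := by
    rw [hR', e1]
    module
  have hne2 : addx x y (T K * Xk K (j + 1)) (-y1) ≠ T K := by
    refine x_ne h2 h3 hs (m := (2 : ℤ) ^ (2 * j) - 1) (n := 1) ?_ ?_ hAeq (one_smul _ _).symm hA hs
    · omega
    · omega
  have hB := hA.add hs hne2
  have hBeq : -s + (2 ^ (j + 1) • s + 2 ^ (2 * j) • s) + -(2 ^ (j + 1) • s) + s =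
      2 ^ (2 * j) • s := by
    rw [hAeq, e2]
    module
  rw [hBeq] at hB
  obtain ⟨hx', -⟩ := hB.inj h2'
  -- heights
  set M := 3 * d + 3 + (3 * (dg (j + 1) + 1) + 3) with hM
  have b1 : HB1 x M := isHt_HB1.mono hx (by omega)
  have b2 : HB1 y M := isHt_HB1.mono (HB1_y hR hx) (by omega)
  have b3' : HB1 (T K * Xk K (j + 1)) (1 + dg (j + 1)) :=
    isHt_HB1.mul HB1_T (HB1_Xk h2 (j + 1) h3)
  have b3 : HB1 (T K * Xk K (j + 1)) M := isHt_HB1.mono b3' (by omega)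
  have b4 : HB1 (-y1) M := isHt_HB1.neg (isHt_HB1.mono (HB1_y h1 b3') (by omega))
  obtain ⟨b5, b6⟩ := isHt_HB1.addxy b1 b2 b3 b4
  have bT : HB1 (T K) (16 * M) := isHt_HB1.mono HB1_T (by omega)
  obtain ⟨b7, -⟩ := isHt_HB1.addxy b5 b6 bT bT
  rw [hx'] at b7
  have b8 : HB1 (Xk K (2 * j)) (16 * (16 * M) + 1) := by
    have h4 : Xk K (2 * j) = T K * Xk K (2 * j) * (T K)⁻¹ := by
      rw [mul_comm (T K), mul_assoc, mul_inv_cancel₀ T_ne_zero, mul_one]
    rw [h4]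
    exact isHt_HB1.mul b7 (isHt_HB1.inv HB1_T)
  have := dg_le_of_HB1 h2 h3 _ _ b8
  omega

end Q52.Deg
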