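import Mathlib
import Pool.Agent.Q52.Deg.Good
import Pool.Agent.Q52.Deg.Sigma

set_option autoImplicit false

/-!
Specialization of points.
-/

namespace Q52.Deg

open WeierstrassCurve

variable {K : Type*} [Field K]

theorem IsPt.eq' {k : Type*} [Field k] {D : k} {F : Type*} [Field F] [Algebra k F]
    {P Q : EP D F} {x y : F} (hP : IsPt D P x y) (hQ : IsPt D Q x y) : P = Q := by
  obtain ⟨_, rfl⟩ := hP
  obtain ⟨_, rfl⟩ := hQ
  rfl

theorem isHt_HB (N : ℕ) : IsHt (HB (K := K) (N := N)) where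
  mono := HB.mono
  add := HB.add
  mul := HB.mul
  neg := HB.neg
  inv := HB.inv
  nat := fun n => HB.ofNat n 0

/-! ### the field of constants in a field -/

section param

variable {F : Type*} [Field F] [Algebra (F0 K) F]

/-- The image of `T`. -/
noncomputable def tt (K : Type*) [Field K] (F : Type*) [Field F] [Algebra (F0 K) F] : F :=
  algebraMap (F0 K) F (T K)

theorem tt_ne_zero : tt K F ≠ 0 := by
  intro h
  exact T_ne_zero ((algebraMap (F0 K) F).injective (h.trans (map_zero _).symm))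

theorem algebraMap_D0 : algebraMap (F0 K) F (D0 K) = tt K F ^ 2 * (1 - tt K F) := by
  unfold D0 tt
  rw [map_mul, map_sub, map_pow, map_one]

theorem algebraMap_D0_ne : algebraMap (F0 K) F (D0 K) ≠ 0 := by
  intro h
  exact D0_ne_zero ((algebraMap (F0 K) F).injective (h.trans (map_zero _).symm))

theorem eqn_of_isPt {P : EP (D0 K) F} {x y : F} (h : IsPt (D0 K) P x y) :
    (y / tt K F) ^ 2 - 1 = tt K F * ((x / tt K F) ^ 3 - 1) := by
  have e := h.equation
  rw [algebraMap_D0] at e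
  have ht := tt_ne_zero (K := K) (F := F)
  field_simp
  linear_combination e

theorem isPt_of_eqn (h2 : (2 : F) ≠ 0) (h3 : (3 : F) ≠ 0) {X Y : F}
    (h : Y ^ 2 - 1 = tt K F * (X ^ 3 - 1)) :
    ∃ P : EP (D0 K) F, IsPt (D0 K) P (tt K F * X) (tt K F * Y) := by
  apply exists_isPt h2 h3 algebraMap_D0_ne
  rw [algebraMap_D0]
  linear_combination tt K F ^ 2 * h

/-- The pair of points `P, Q` has the parameters `a, b, s`. -/
def Par (P Q : EP (D0 K) F) (a b s Y Z : F) : Prop :=
  IsPt (D0 K) P (tt K F * a) (tt K F * Y) ∧ IsPt (D0 K) Q (tt K F * b) (tt K F * Z) ∧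
    Good a b s Y Z (tt K F)

theorem exists_par {P Q : EP (D0 K) F} {x y x' y' : F} (hP : IsPt (D0 K) P x y)
    (hQ : IsPt (D0 K) Q x' y') (h1 : (x / tt K F) ^ 3 ≠ 1) (h2 : (x' / tt K F) ^ 3 ≠ 1)
    (h3 : (x / tt K F) ^ 3 ≠ (x' / tt K F) ^ 3) :
    Par P Q (x / tt K F) (x' / tt K F) ((y' / tt K F - 1) / (y / tt K F - 1)) (y / tt K F)
      (y' / tt K F) := by
  have ht := tt_ne_zero (K := K) (F := F)
  refine ⟨?_, ?_, Good.of ht (eqn_of_isPt hP) (eqn_of_isPt hQ) h1 h3 ?_⟩
  · rwa [mul_div_cancel₀ _ ht, mul_div_cancel₀ _ ht]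
  · rwa [mul_div_cancel₀ _ ht, mul_div_cancel₀ _ ht]
  · intro h
    have e := eqn_of_isPt hQ
    rw [h] at e
    have e' : tt K F * ((x' / tt K F) ^ 3 - 1) = 0 := by rw [← e]; ring
    exact mul_ne_zero ht (sub_ne_zero.2 h2) e'

end param

/-! ### the specializations of the multiples of `σ` -/

section F0

variable (h2 : (2 : K) ≠ 0) (h3 : (3 : K) ≠ 0)

include h2 h3 in
theorem Xk_cube_ne_one (k : ℕ) : Xk K (k + 1) ^ 3 ≠ 1 := by
  intro h
  unfold Xk at h
  rw [div_pow, div_eq_one_iff_eq (pow_ne_zero _ (algebraMap_ne (pq_ne_zero h2 _))), ← map_pow,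
    ← map_pow] at h
  have h' := congrArg Polynomial.natDegree (algebraMap_inj h)
  rw [Polynomial.natDegree_pow, Polynomial.natDegree_pow] at h'
  have := pq_degree h2 h3 k
  omega

include h2 h3 in
theorem X1_cube_ne : Xk K 2 ^ 3 ≠ Xk K 1 ^ 3 := by
  intro h
  unfold Xk at h
  rw [div_pow, div_pow, div_eq_div_iff (pow_ne_zero _ (algebraMap_ne (pq_ne_zero h2 _)))
    (pow_ne_zero _ (algebraMap_ne (pq_ne_zero h2 _))), ← map_pow, ← map_pow, ← map_pow, ← map_pow,
    ← map_mul, ← map_mul] at h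
  have h' := congrArg (Polynomial.eval 0) (algebraMap_inj h)
  simp only [pq, Polynomial.eval_mul, Polynomial.eval_pow, Polynomial.eval_sub,
    Polynomial.eval_add, Polynomial.eval_X, Polynomial.eval_one, Polynomial.eval_ofNat] at h'
  have e : (2 : K) ^ 39 * 3 ^ 2 = 0 := by
    linear_combination h'
  exact mul_ne_zero (pow_ne_zero _ h2) (pow_ne_zero _ h3) e

end F0

end Q52.Deg
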