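import Mathlib
import Pool.Agent.Q52.Deg.Spec

set_option autoImplicit false

/-!
Specialization of points, with heights.
-/

namespace Q52.Deg

open WeierstrassCurve

theorem two_pow_succ_smul {G : Type*} [AddCommGroup G] (g : G) (k : ℕ) :
    2 ^ (k + 1) • g = 2 ^ k • g + 2 ^ k • g := by
  rw [pow_succ, mul_comm, mul_smul, two_smul]

section Tr

variable {K : Type*} [Field K] {N : ℕ} [Algebra (F0 K) (FF K N)] {F : Type*} [Field F]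
  [Algebra K F] [Algebra (F0 K) F]

/-- The point `P` specializes to `P'` at `y`, and its coordinates have height at most `d`. -/
def Tr (y : Fin N → F) (P : EP (D0 K) (FF K N)) (P' : EP (D0 K) F) (d : ℕ) : Prop :=
  ∃ (x₁ x₂ : FF K N) (x₁' x₂' : F), IsPt (D0 K) P x₁ x₂ ∧ IsPt (D0 K) P' x₁' x₂' ∧
    Red y x₁ x₁' ∧ Red y x₂ x₂' ∧ HB x₁ d ∧ HB x₂ d

variable {y : Fin N → F} {P Q : EP (D0 K) (FF K N)} {P' Q' : EP (D0 K) F} {d e : ℕ}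

theorem Tr.mono (h : Tr y P P' d) (hde : d ≤ e) : Tr y P P' e := by
  obtain ⟨x₁, x₂, x₁', x₂', h1, h2, h3, h4, h5, h6⟩ := h
  exact ⟨x₁, x₂, x₁', x₂', h1, h2, h3, h4, h5.mono hde, h6.mono hde⟩

theorem Tr.neg (h : Tr y P P' d) : Tr y (-P) (-P') d := by
  obtain ⟨x₁, x₂, x₁', x₂', h1, h2, h3, h4, h5, h6⟩ := h
  exact ⟨x₁, -x₂, x₁', -x₂', h1.neg, h2.neg, h3, h4.neg, h5, h6.neg⟩

theorem Tr.ne (h : Tr y P P' d) (h' : Tr y Q Q' e) (hne : P' ≠ Q') : P ≠ Q := by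
  rintro rfl
  obtain ⟨x₁, x₂, x₁', x₂', h1, h2, h3, h4, -, -⟩ := h
  obtain ⟨z₁, z₂, z₁', z₂', g1, g2, g3, g4, -, -⟩ := h'
  obtain ⟨rfl, rfl⟩ := h1.inj g1
  have e1 := h3.unique g3
  have e2 := h4.unique g4
  rw [← e1, ← e2] at g2
  exact hne (h2.eq' g2)

variable [DecidableEq F] [DecidableEq (FF K N)]

theorem Tr.add (h : Tr y P P' d) (h' : Tr y Q Q' d) (hne : P' ≠ Q') (hne' : P' ≠ -Q') :
    Tr y (P + Q) (P' + Q') (16 * d) := by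
  obtain ⟨x₁, x₂, x₁', x₂', h1, h2, h3, h4, h5, h6⟩ := h
  obtain ⟨z₁, z₂, z₁', z₂', g1, g2, g3, g4, g5, g6⟩ := h'
  have hx' : x₁' ≠ z₁' := by
    rintro rfl
    rcases h2.eq_or g2 with h | h
    · exact hne h
    · exact hne' h
  have hx : x₁ ≠ z₁ := h3.ne g3 hx'
  have hs : Red y ((x₂ - z₂) / (x₁ - z₁)) ((x₂' - z₂') / (x₁' - z₁')) :=
    (h4.sub g4).div (h3.sub g3) (sub_ne_zero.2 hx')
  have ha : Red y (addx x₁ x₂ z₁ z₂) (addx x₁' x₂' z₁' z₂') :=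
    ((hs.pow 2).sub h3).sub g3
  have hb : Red y (addy x₁ x₂ z₁ z₂) (addy x₁' x₂' z₁' z₂') :=
    (hs.mul (h3.sub ha)).sub h4
  obtain ⟨b1, b2⟩ := (isHt_HB N).addxy h5 h6 g5 g6
  exact ⟨_, _, _, _, h1.add g1 hx, h2.add g2 hx', ha, hb, b1, b2⟩

theorem Tr.dbl (h : Tr y P P' d) (hF2 : (2 : F) ≠ 0) (hK2 : (2 : FF K N) ≠ 0)
    (hne : P' ≠ -P') : Tr y (P + P) (P' + P') (16 * d) := by
  obtain ⟨x₁, x₂, x₁', x₂', h1, h2, h3, h4, h5, h6⟩ := h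
  have hx' : x₂' ≠ 0 := by
    rintro rfl
    have := h2.neg
    rw [neg_zero] at this
    exact hne (h2.eq' this)
  have h0 : Red y (0 : FF K N) (0 : F) := by
    have := Red.nat (y := y) (K := K) 0
    simpa using this
  have hx : x₂ ≠ 0 := h4.ne h0 hx'
  have r3 : Red y (3 : FF K N) (3 : F) := by
    have := Red.nat (y := y) (K := K) 3
    simpa using this
  have hs : Red y (3 * x₁ ^ 2 / (2 * x₂)) (3 * x₁' ^ 2 / (2 * x₂')) :=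
    (r3.mul (h3.pow 2)).div (Red.two.mul h4) (mul_ne_zero hF2 hx')
  have ha : Red y (dblx x₁ x₂) (dblx x₁' x₂') := (hs.pow 2).sub (Red.two.mul h3)
  have hb : Red y (dbly x₁ x₂) (dbly x₁' x₂') := (hs.mul (h3.sub ha)).sub h4
  obtain ⟨b1, b2⟩ := (isHt_HB N).dblxy h5 h6
  exact ⟨_, _, _, _, h1.dbl hK2 hx, h2.dbl hF2 hx', ha, hb, b1, b2⟩

/-- Repeated doubling. -/
theorem Tr.two_pow (h : Tr y P P' d) (hF2 : (2 : F) ≠ 0) (hK2 : (2 : FF K N) ≠ 0)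
    (hne : ∀ k : ℕ, (2 ^ k • P' : EP (D0 K) F) ≠ -(2 ^ k • P')) (k : ℕ) :
    Tr y (2 ^ k • P) (2 ^ k • P') (16 ^ k * d) := by
  induction k with
  | zero => simpa using h
  | succ k ih =>
    have := ih.dbl hF2 hK2 (hne k)
    rw [two_pow_succ_smul, two_pow_succ_smul]
    refine this.mono (le_of_eq ?_)
    ring

end Tr

end Q52.Deg
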