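import Mathlib
import Pool.Agent.Q52.Deg.Tr

set_option autoImplicit false

/-!
The generic point of the threefold, and the field `K(T)` inside `K(a, b, s)`.
-/

namespace Q52.Deg

open WeierstrassCurve Polynomial

/-- the decidability instance used throughout -/
noncomputable local instance decF0 {K : Type*} [Field K] : DecidableEq (F0 K) := Classical.decEq _

variable {K : Type*} [Field K]

theorem red_var {N : ℕ} {F : Type*} [Field F] [Algebra K F] (y : Fin N → F) (i : Fin N) :
    Red y (var K N i) (y i) := by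
  have := Red.poly (y := y) (MvPolynomial.X i : MvPolynomial (Fin N) K)
  rwa [MvPolynomial.aeval_X] at this

/-! ### the test curves -/

/-- `y (2 σ) / T` -/
noncomputable def Y0 (K : Type*) [Field K] : F0 K := (36 * T K - 27 * T K ^ 2 - 8) / 8

theorem Xk_one : Xk K 1 = (9 * T K - 8) / 4 := by
  unfold Xk
  simp only [pq, map_mul, map_sub, map_add, map_pow, map_one, map_ofNat, T_eq]
  congr 1 <;> ring

variable (h2 : (2 : K) ≠ 0) (h3 : (3 : K) ≠ 0) {s : EP (D0 K) (F0 K)}
  (hs : IsPt (D0 K) s (T K) (T K))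

include h2 in
theorem eight_ne : (8 : F0 K) ≠ 0 := by
  have : (8 : F0 K) = 2 ^ 3 := by norm_num
  rw [this]
  exact pow_ne_zero _ (two_ne h2)

include h2 hs in
theorem isPt_two : IsPt (D0 K) (s + s) (T K * Xk K 1) (T K * Y0 K) := by
  have h := hs.dbl (two_ne h2) T_ne_zero
  have hT := T_ne_zero (K := K)
  have h2' := two_ne h2
  have h4' := four_ne h2
  have h8' := eight_ne h2
  have e0 : (3 * T K ^ 2 / (2 * T K)) = 3 * T K / 2 := by
    field_simp
  have e1 : dblx (T K) (T K) = T K * Xk K 1 := by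
    unfold dblx
    rw [e0, Xk_one]
    have h22 : (2 : F0 K) ^ 2 = 4 := by norm_num
    field_simp
    rw [h22]
    ring
  have e2 : dbly (T K) (T K) = T K * Y0 K := by
    have e3 : dbly (T K) (T K) = 3 * T K ^ 2 / (2 * T K) * (T K - dblx (T K) (T K)) - T K := rfl
    rw [e3, e1, e0, Xk_one, Y0]
    have h24 : (8 : F0 K) = 2 * 4 := by norm_num
    rw [h24]
    field_simp
    ring
  rw [e1, e2] at h
  exact h

/-- The parameters of the test curves. -/
noncomputable def tup (K : Type*) [Field K] (Y : F0 K) : Fin 3 → F0 K :=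
  ![Xk K 1, 1, (-1 - 1) / (Y - 1)]

include h2 h3 in
theorem good_tup {Y : F0 K} (hY : Y ^ 2 - 1 = T K * (Xk K 1 ^ 3 - 1)) :
    Good (tup K Y 0) (tup K Y 1) (tup K Y 2) Y (-1) (T K) := by
  refine Good.of T_ne_zero hY ?_ (Xk_cube_ne_one h2 h3 0) ?_ ?_
  · simp [tup]
  · have := Xk_cube_ne_one h2 h3 0
    simpa [tup] using this
  · intro h
    have h2' := two_ne h2
    apply h2'
    linear_combination -h

include h2 hs in
theorem Y0_eqn : Y0 K ^ 2 - 1 = T K * (Xk K 1 ^ 3 - 1) := by
  have h := eqn_of_isPt (isPt_two h2 hs)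
  have ht : tt K (F0 K) = T K := rfl
  rw [ht, mul_div_cancel_left₀ _ (T_ne_zero (K := K)),
    mul_div_cancel_left₀ _ (T_ne_zero (K := K))] at h
  exact h

/-! ### the generic point -/

/-- generic parameters -/
noncomputable abbrev va (K : Type*) [Field K] : FF K 3 := var K 3 0
/-- generic parameters -/
noncomputable abbrev vb (K : Type*) [Field K] : FF K 3 := var K 3 1
/-- generic parameters -/
noncomputable abbrev vs (K : Type*) [Field K] : FF K 3 := var K 3 2
/-- the generic value of `Y` -/
noncomputable def gY (K : Type*) [Field K] : FF K 3 := Yf (va K) (vb K) (vs K)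
/-- the generic value of `Z` -/
noncomputable def gZ (K : Type*) [Field K] : FF K 3 := Zf (va K) (vb K) (vs K)
/-- the generic value of `u` -/
noncomputable def gu (K : Type*) [Field K] : FF K 3 := uf (va K) (vb K) (vs K)

theorem two_ne_of {F : Type*} [Field F] [Algebra K F] (h2 : (2 : K) ≠ 0) : (2 : F) ≠ 0 := by
  intro h
  apply h2
  apply (algebraMap K F).injective
  rw [map_ofNat, map_zero, h]

theorem three_ne_of {F : Type*} [Field F] [Algebra K F] (h3 : (3 : K) ≠ 0) : (3 : F) ≠ 0 := by
  intro h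
  apply h3
  apply (algebraMap K F).injective
  rw [map_ofNat, map_zero, h]

section red

variable {F : Type*} [Field F] [Algebra K F] {y : Fin 3 → F} {Y Z u : F}

include h2 in
theorem red_gY (h : Good (y 0) (y 1) (y 2) Y Z u) : Red y (gY K) Y :=
  h.red_Y (two_ne_of h2) (red_var y 0) (red_var y 1) (red_var y 2)

include h2 in
theorem red_gZ (h : Good (y 0) (y 1) (y 2) Y Z u) : Red y (gZ K) Z :=
  h.red_Z (two_ne_of h2) (red_var y 0) (red_var y 1) (red_var y 2)

include h2 in
theorem red_gu (h : Good (y 0) (y 1) (y 2) Y Z u) : Red y (gu K) u :=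
  h.red_u (two_ne_of h2) (red_var y 0) (red_var y 1) (red_var y 2)

end red

include h2 h3 in
theorem exists_sigma : ∃ s : EP (D0 K) (F0 K), IsPt (D0 K) s (T K) (T K) := by
  apply exists_isPt (two_ne h2) (three_ne_of h3) algebraMap_D0_ne
  rw [algebraMap_D0]
  have ht : tt K (F0 K) = T K := rfl
  rw [ht]
  ring

include h2 h3 in
theorem good_gen : Good (va K) (vb K) (vs K) (gY K) (gZ K) (gu K) := by
  obtain ⟨s, hs⟩ := exists_sigma h2 h3
  exact (good_tup h2 h3 (Y0_eqn h2 hs)).lift (two_ne h2) (red_var _ 0) (red_var _ 1)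
    (red_var _ 2)

theorem aeval_T (p : K[X]) : aeval (T K) p = algebraMap K[X] (F0 K) p := by
  have := Polynomial.aeval_algebraMap_apply (F0 K) (X : K[X]) p
  rw [aeval_X_left_apply] at this
  exact this

include h2 h3 in
theorem aeval_gu_injective : Function.Injective (aeval (gu K) : K[X] →ₐ[K] FF K 3) := by
  obtain ⟨s, hs⟩ := exists_sigma h2 h3
  rw [injective_iff_map_eq_zero]
  intro p hp
  have h := (red_gu h2 (good_tup h2 h3 (Y0_eqn h2 hs))).polyAeval p
  rw [hp] at h
  have h0 : Red (tup K (Y0 K)) (0 : FF K 3) (0 : F0 K) := by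
    have := Red.nat (y := tup K (Y0 K)) (K := K) 0
    simpa using this
  have h1 := h.unique h0
  rw [aeval_T] at h1
  exact algebraMap_inj (h1.trans (map_zero _).symm)

/-- The embedding of `K(T)` into `K(a, b, s)`. -/
noncomputable def iota (h2 : (2 : K) ≠ 0) (h3 : (3 : K) ≠ 0) : F0 K →ₐ[K] FF K 3 :=
  IsFractionRing.liftAlgHom (aeval_gu_injective h2 h3)

theorem iota_T : iota h2 h3 (T K) = gu K := by
  unfold iota T
  rw [IsFractionRing.liftAlgHom_apply, IsFractionRing.lift_algebraMap]
  simp

/-- Two homomorphisms which agree on `T`. -/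
theorem hom_ext {F : Type*} [Field F] [Algebra K F] {f g : F0 K →ₐ[K] F} (h : f (T K) = g (T K)) :
    f = g := by
  have h1 : f.comp (IsScalarTower.toAlgHom K K[X] (F0 K)) =
      g.comp (IsScalarTower.toAlgHom K K[X] (F0 K)) := by
    apply Polynomial.algHom_ext
    exact h
  apply AlgHom.ext
  intro c
  obtain ⟨n, m, hm, rfl⟩ := IsFractionRing.div_surjective (A := K[X]) c
  have e : ∀ p : K[X], f (algebraMap K[X] (F0 K) p) = g (algebraMap K[X] (F0 K) p) := fun p =>
    DFunLike.congr_fun h1 p
  rw [map_div₀, map_div₀, e, e]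

end Q52.Deg
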