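import Mathlib
import Pool.Agent.Q52.Deg.Gen

set_option autoImplicit false

/-!
The birational map.
-/

namespace Q52.Deg

open WeierstrassCurve

/-- the decidability instance used throughout -/
noncomputable local instance decF0' {K : Type*} [Field K] : DecidableEq (F0 K) := Classical.decEq _

/-- the decidability instance used throughout -/
noncomputable local instance decFF {K : Type*} [Field K] {N : ℕ} : DecidableEq (FF K N) :=
  Classical.decEq _

variable {K : Type*} [Field K]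

/-! ### multiples of `σ` -/

section sigma

variable (h2 : (2 : K) ≠ 0) (h3 : (3 : K) ≠ 0) {s : EP (D0 K) (F0 K)}
  (hs : IsPt (D0 K) s (T K) (T K))

include h2 h3 hs in
theorem ndeg {m n : ℤ} {P Q : EP (D0 K) (F0 K)} (hP : P = m • s) (hQ : Q = n • s) (h : m ≠ n) :
    P ≠ Q := by
  rw [hP, hQ]
  intro e
  exact zsmul_ne_zero' h2 h3 hs (sub_ne_zero.2 h) (by rw [sub_smul, e, sub_self])

theorem tt_F0 : tt K (F0 K) = T K := rfl

include h2 h3 hs in
theorem par_plus : Par (s + s) (-s) (tup K (Y0 K) 0) (tup K (Y0 K) 1) (tup K (Y0 K) 2)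
    (Y0 K) (-1) := by
  refine ⟨?_, ?_, ?_⟩
  · rw [tt_F0]
    exact isPt_two h2 hs
  · rw [tt_F0]
    have e1 : T K * tup K (Y0 K) 1 = T K := by simp [tup]
    have e2 : T K * (-1) = -T K := by ring
    rw [e1, e2]
    exact hs.neg
  · exact good_tup h2 h3 (Y0_eqn h2 hs)

include h2 h3 hs in
theorem par_minus : Par (-(s + s)) (-s) (tup K (-Y0 K) 0) (tup K (-Y0 K) 1) (tup K (-Y0 K) 2)
    (-Y0 K) (-1) := by
  refine ⟨?_, ?_, ?_⟩
  · rw [tt_F0]
    have := (isPt_two h2 hs).neg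
    rw [← mul_neg] at this
    exact this
  · rw [tt_F0]
    have e1 : T K * tup K (-Y0 K) 1 = T K := by simp [tup]
    have e2 : T K * (-1) = -T K := by ring
    rw [e1, e2]
    exact hs.neg
  · apply good_tup h2 h3
    rw [neg_sq]
    exact Y0_eqn h2 hs

include h2 hs in
theorem isPt_four : ∃ y, IsPt (D0 K) (s + s + s + s) (T K * Xk K 2) y := by
  obtain ⟨y, _, hy⟩ := isPt_two_pow h2 hs 2
  refine ⟨y, ?_⟩
  have e : s + s + s + s = 2 ^ 2 • s := by module
  rw [e]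
  exact hy

end sigma

theorem exists_S (h2 : (2 : K) ≠ 0) (h3 : (3 : K) ≠ 0) (F : Type*) [Field F] [Algebra K F]
    [Algebra (F0 K) F] : ∃ S : EP (D0 K) F, IsPt (D0 K) S (tt K F) (tt K F) := by
  apply exists_isPt (two_ne_of h2) (three_ne_of h3) algebraMap_D0_ne
  rw [algebraMap_D0]
  ring

/-! ### the generic point -/

section gen

variable [Algebra (F0 K) (FF K 3)]
  (h2 : (2 : K) ≠ 0) (h3 : (3 : K) ≠ 0) (ht : tt K (FF K 3) = gu K)

include h2 h3 ht in
theorem exists_Q : ∃ Q₁ Q₂ : EP (D0 K) (FF K 3),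
    Par Q₁ Q₂ (va K) (vb K) (vs K) (gY K) (gZ K) := by
  have hg := good_gen h2 h3
  rw [← ht] at hg
  obtain ⟨Q₁, hQ₁⟩ := isPt_of_eqn (K := K) (F := FF K 3) (two_ne_of h2) (three_ne_of h3) hg.hY
  obtain ⟨Q₂, hQ₂⟩ := isPt_of_eqn (K := K) (F := FF K 3) (two_ne_of h2) (three_ne_of h3) hg.hZ
  exact ⟨Q₁, Q₂, hQ₁, hQ₂, hg⟩

variable {Q₁ Q₂ S : EP (D0 K) (FF K 3)}
  (hQ : Par Q₁ Q₂ (va K) (vb K) (vs K) (gY K) (gZ K))
  (hS : IsPt (D0 K) S (tt K (FF K 3)) (tt K (FF K 3)))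

include h2 ht in
theorem red_tt {F : Type*} [Field F] [Algebra K F] [Algebra (F0 K) F] {y : Fin 3 → F}
    {P₁ P₂ : EP (D0 K) F} {Y Z : F} (hpar : Par P₁ P₂ (y 0) (y 1) (y 2) Y Z) :
    Red y (tt K (FF K 3)) (tt K F) := by
  rw [ht]
  exact red_gu h2 hpar.2.2

include h2 ht hQ hS in
/-- Specialization of the generic points. -/
theorem spec {F : Type*} [Field F] [Algebra K F] [Algebra (F0 K) F] {y : Fin 3 → F}
    {P₁ P₂ S' : EP (D0 K) F} {Y Z : F} (hpar : Par P₁ P₂ (y 0) (y 1) (y 2) Y Z)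
    (hS' : IsPt (D0 K) S' (tt K F) (tt K F)) :
    ∃ d, Tr y Q₁ P₁ d ∧ Tr y Q₂ P₂ d ∧ Tr y S S' d := by
  obtain ⟨d0, hd0⟩ := HB.exists (tt K (FF K 3))
  obtain ⟨d1, hd1⟩ := HB.exists (tt K (FF K 3) * va K)
  obtain ⟨d2, hd2⟩ := HB.exists (tt K (FF K 3) * vb K)
  obtain ⟨d3, hd3⟩ := HB.exists (tt K (FF K 3) * gY K)
  obtain ⟨d4, hd4⟩ := HB.exists (tt K (FF K 3) * gZ K)
  have ru := red_tt h2 ht hpar
  refine ⟨d0 + d1 + d2 + d3 + d4, ?_, ?_, ?_⟩
  · exact ⟨_, _, _, _, hQ.1, hpar.1, ru.mul (red_var y 0), ru.mul (red_gY h2 hpar.2.2),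
      hd1.mono (by omega), hd3.mono (by omega)⟩
  · exact ⟨_, _, _, _, hQ.2.1, hpar.2.1, ru.mul (red_var y 1), ru.mul (red_gZ h2 hpar.2.2),
      hd2.mono (by omega), hd4.mono (by omega)⟩
  · exact ⟨_, _, _, _, hS, hS', ru, ru, hd0.mono (by omega), hd0.mono (by omega)⟩

include h2 h3 in
theorem exists_par_of_Tr {y : Fin 3 → F0 K} (hy : Red y (tt K (FF K 3)) (T K))
    {P Q : EP (D0 K) (FF K 3)} {P' Q' : EP (D0 K) (F0 K)} {d e : ℕ} (hP : Tr y P P' d)
    (hQ : Tr y Q Q' e) {w w' : F0 K} (hP' : IsPt (D0 K) P' (T K * Xk K 2) w)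
    (hQ' : IsPt (D0 K) Q' (T K * Xk K 1) w') : ∃ a b s Y Z, Par P Q a b s Y Z := by
  obtain ⟨x₁, x₂, x₁', x₂', p1, p2, p3, p4, -, -⟩ := hP
  obtain ⟨z₁, z₂, z₁', z₂', q1, q2, q3, q4, -, -⟩ := hQ
  obtain ⟨rfl, rfl⟩ := p2.inj hP'
  obtain ⟨rfl, rfl⟩ := q2.inj hQ'
  have r1 : Red y ((x₁ / tt K (FF K 3)) ^ 3) (Xk K 2 ^ 3) := by
    have := (p3.div hy T_ne_zero).pow 3
    rwa [mul_div_cancel_left₀ _ (T_ne_zero (K := K))] at this
  have r2 : Red y ((z₁ / tt K (FF K 3)) ^ 3) (Xk K 1 ^ 3) := by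
    have := (q3.div hy T_ne_zero).pow 3
    rwa [mul_div_cancel_left₀ _ (T_ne_zero (K := K))] at this
  exact ⟨_, _, _, _, _, exists_par p1 q1 (r1.ne Red.one (Xk_cube_ne_one h2 h3 1))
    (r2.ne Red.one (Xk_cube_ne_one h2 h3 0)) (r1.ne r2 (X1_cube_ne h2 h3))⟩

include h2 h3 ht hQ hS in
/-- The parameters of the image. -/
theorem exists_par_image : ∃ a b s Y Z, Par (Q₁ + S + S) (Q₂ + (Q₁ + S)) a b s Y Z := by
  obtain ⟨s, hs⟩ := exists_sigma h2 h3
  have hpar := par_plus h2 h3 hs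
  obtain ⟨d, t1, t2, t3⟩ := spec h2 ht hQ hS hpar hs
  have a1 := t1.add t3 (ndeg h2 h3 hs (m := 2) (n := 1) (by module) (by module) (by norm_num))
    (ndeg h2 h3 hs (m := 2) (n := -1) (by module) (by module) (by norm_num))
  have a2 := a1.add (t3.mono (show d ≤ 16 * d by omega))
    (ndeg h2 h3 hs (m := 3) (n := 1) (by module) (by module) (by norm_num))
    (ndeg h2 h3 hs (m := 3) (n := -1) (by module) (by module) (by norm_num))
  have a3 := (t2.mono (show d ≤ 16 * d by omega)).add a1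
    (ndeg h2 h3 hs (m := -1) (n := 3) (by module) (by module) (by norm_num))
    (ndeg h2 h3 hs (m := -1) (n := -3) (by module) (by module) (by norm_num))
  obtain ⟨w, hw⟩ := isPt_four h2 hs
  have e : -s + (s + s + s) = s + s := by abel
  rw [e] at a3
  exact exists_par_of_Tr h2 h3 (red_tt h2 ht hpar) a2 a3 hw (isPt_two h2 hs)

include h2 h3 ht hQ hS in
/-- The parameters of the image of the inverse. -/
theorem exists_par_inv : ∃ a b s Y Z, Par (Q₁ - S - S) (Q₂ - (Q₁ - S)) a b s Y Z := by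
  obtain ⟨s, hs⟩ := exists_sigma h2 h3
  have hpar := par_minus h2 h3 hs
  obtain ⟨d, t1, t2, t3⟩ := spec h2 ht hQ hS hpar hs
  have a1 := t1.add t3.neg
    (ndeg h2 h3 hs (m := -2) (n := -1) (by module) (by module) (by norm_num))
    (ndeg h2 h3 hs (m := -2) (n := 1) (by module) (by module) (by norm_num))
  have a2 := a1.add (t3.neg.mono (show d ≤ 16 * d by omega))
    (ndeg h2 h3 hs (m := -3) (n := -1) (by module) (by module) (by norm_num))
    (ndeg h2 h3 hs (m := -3) (n := 1) (by module) (by module) (by norm_num))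
  have a3 := (t2.mono (show d ≤ 16 * d by omega)).add a1.neg
    (ndeg h2 h3 hs (m := -1) (n := 3) (by module) (by module) (by norm_num))
    (ndeg h2 h3 hs (m := -1) (n := -3) (by module) (by module) (by norm_num))
  obtain ⟨w, hw⟩ := isPt_four h2 hs
  have e : -s + -(-(s + s) + -s) = s + s := by abel
  have e' : -(s + s) + -s + -s = -(s + s + s + s) := by abel
  rw [e] at a3
  rw [e'] at a2
  simp only [sub_eq_add_neg]
  exact exists_par_of_Tr h2 h3 (red_tt h2 ht hpar) a2 a3 hw.neg (isPt_two h2 hs)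

include h2 h3 ht hQ hS in
/-- Nondegeneracy of the inverse. -/
theorem nondeg_inv : Q₁ - S - S ≠ S ∧ Q₁ - S - S ≠ -S ∧ Q₁ - S ≠ S ∧ Q₁ - S ≠ -S ∧
    Q₂ - (Q₁ - S) ≠ Q₁ - S ∧ Q₂ - (Q₁ - S) ≠ -(Q₁ - S) := by
  obtain ⟨s, hs⟩ := exists_sigma h2 h3
  have hpar := par_minus h2 h3 hs
  obtain ⟨d, t1, t2, t3⟩ := spec h2 ht hQ hS hpar hs
  have a1 := t1.add t3.neg
    (ndeg h2 h3 hs (m := -2) (n := -1) (by module) (by module) (by norm_num))
    (ndeg h2 h3 hs (m := -2) (n := 1) (by module) (by module) (by norm_num))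
  have a2 := a1.add (t3.neg.mono (show d ≤ 16 * d by omega))
    (ndeg h2 h3 hs (m := -3) (n := -1) (by module) (by module) (by norm_num))
    (ndeg h2 h3 hs (m := -3) (n := 1) (by module) (by module) (by norm_num))
  have a3 := (t2.mono (show d ≤ 16 * d by omega)).add a1.neg
    (ndeg h2 h3 hs (m := -1) (n := 3) (by module) (by module) (by norm_num))
    (ndeg h2 h3 hs (m := -1) (n := -3) (by module) (by module) (by norm_num))
  simp only [← sub_eq_add_neg] at a1 a2 a3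
  refine ⟨a2.ne t3 ?_, a2.ne t3.neg ?_, a1.ne t3 ?_, a1.ne t3.neg ?_, a3.ne a1 ?_,
    a3.ne a1.neg ?_⟩
  · exact ndeg h2 h3 hs (m := -4) (n := 1) (by module) (by module) (by norm_num)
  · exact ndeg h2 h3 hs (m := -4) (n := -1) (by module) (by module) (by norm_num)
  · exact ndeg h2 h3 hs (m := -3) (n := 1) (by module) (by module) (by norm_num)
  · exact ndeg h2 h3 hs (m := -3) (n := -1) (by module) (by module) (by norm_num)
  · exact ndeg h2 h3 hs (m := 2) (n := -3) (by module) (by module) (by norm_num)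
  · exact ndeg h2 h3 hs (m := 2) (n := 3) (by module) (by module) (by norm_num)

end gen

end Q52.Deg
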