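import Mathlib
import Pool.Agent.Q52.Deg.Map

set_option autoImplicit false

/-!
The endomorphism of the function field.
-/

namespace Q52.Deg

open WeierstrassCurve

/-- the decidability instance used throughout -/
noncomputable local instance decF02 {K : Type*} [Field K] : DecidableEq (F0 K) := Classical.decEq _

/-- the decidability instance used throughout -/
noncomputable local instance decFF2 {K : Type*} [Field K] {N : ℕ} : DecidableEq (FF K N) :=
  Classical.decEq _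

variable {K : Type*} [Field K] [Algebra (F0 K) (FF K 3)] [IsScalarTower K (F0 K) (FF K 3)]
  (h2 : (2 : K) ≠ 0) (h3 : (3 : K) ≠ 0) (ht : tt K (FF K 3) = gu K)
  {Q₁ Q₂ S : EP (D0 K) (FF K 3)}
  (hQ : Par Q₁ Q₂ (va K) (vb K) (vs K) (gY K) (gZ K))
  (hS : IsPt (D0 K) S (tt K (FF K 3)) (tt K (FF K 3)))
  {a b s Y Z : FF K 3} (hR : Par (Q₁ + S + S) (Q₂ + (Q₁ + S)) a b s Y Z)

omit [IsScalarTower K (F0 K) (FF K 3)] in
include h2 h3 ht hQ hS hR in
/-- The parameters of the image are algebraically independent. -/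
theorem param_injective : Function.Injective
    (MvPolynomial.aeval ![a, b, s] : MvPolynomial (Fin 3) K →ₐ[K] FF K 3) := by
  obtain ⟨a', b', s', Y', Z', hR'⟩ := exists_par_inv h2 h3 ht hQ hS
  obtain ⟨n1, n2, n3, n4, n5, n6⟩ := nondeg_inv h2 h3 ht hQ hS
  have hpar : Par (Q₁ - S - S) (Q₂ - (Q₁ - S)) ((![a', b', s'] : Fin 3 → FF K 3) 0)
    ((![a', b', s'] : Fin 3 → FF K 3) 1) ((![a', b', s'] : Fin 3 → FF K 3) 2) Y' Z' := hR'
  obtain ⟨d, t1, t2, t3⟩ := spec h2 ht hQ hS hpar hS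
  have ru := red_tt h2 ht hpar
  have a1 := t1.add t3 n1 n2
  have e1 : Q₁ - S - S + S = Q₁ - S := by abel
  rw [e1] at a1
  have a2 := a1.add (t3.mono (show d ≤ 16 * d by omega)) n3 n4
  have a3 := (t2.mono (show d ≤ 16 * d by omega)).add a1 n5 n6
  have e2 : Q₁ - S + S = Q₁ := by abel
  have e3 : Q₂ - (Q₁ - S) + (Q₁ - S) = Q₂ := by abel
  rw [e2] at a2
  rw [e3] at a3
  obtain ⟨x₁, x₂, x₁', x₂', p1, p2, p3, p4, -, -⟩ := a2
  obtain ⟨z₁, z₂, z₁', z₂', q1, q2, q3, q4, -, -⟩ := a3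
  obtain ⟨rfl, rfl⟩ := p1.inj hR.1
  obtain ⟨rfl, rfl⟩ := q1.inj hR.2.1
  obtain ⟨rfl, rfl⟩ := p2.inj hQ.1
  obtain ⟨rfl, rfl⟩ := q2.inj hQ.2.1
  have ht0 := tt_ne_zero (K := K) (F := FF K 3)
  have key : ∀ r r' : FF K 3, Red ![a', b', s'] (tt K (FF K 3) * r) (tt K (FF K 3) * r') →
      Red ![a', b', s'] r r' := by
    intro r r' h
    have := h.div ru ht0
    rwa [mul_div_cancel_left₀ _ ht0, mul_div_cancel_left₀ _ ht0] at this
  have ra := key _ _ p3
  have rY := key _ _ p4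
  have rb := key _ _ q3
  have rZ := key _ _ q4
  have hY1 : Y - 1 ≠ 0 := sub_ne_zero.2 hR.2.2.Y1
  have hY1' : gY K - 1 ≠ 0 := sub_ne_zero.2 hQ.2.2.Y1
  have rs : Red ![a', b', s'] s (vs K) := by
    have h := (rZ.sub Red.one).div (rY.sub Red.one) hY1'
    rw [← hR.2.2.hs, ← hQ.2.2.hs, mul_div_cancel_right₀ _ hY1, mul_div_cancel_right₀ _ hY1'] at h
    exact h
  rw [injective_iff_map_eq_zero]
  intro p hp
  have hred : ∀ i, Red ![a', b', s'] ((![a, b, s] : Fin 3 → FF K 3) i) (var K 3 i) := by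
    intro i
    fin_cases i
    · exact ra
    · exact rb
    · exact rs
  have h := Red.mvAeval hred p
  rw [hp] at h
  have h0 : Red ![a', b', s'] (0 : FF K 3) (0 : FF K 3) := by
    have := Red.nat (y := ![a', b', s']) (K := K) 0
    simpa using this
  have h1 := h.unique h0
  have h4 : MvPolynomial.aeval (fun i => var K 3 i) p = algebraMap _ (FF K 3) p := by
    have := MvPolynomial.aeval_algebraMap_apply (FF K 3)
      (MvPolynomial.X : Fin 3 → MvPolynomial (Fin 3) K) p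
    rw [MvPolynomial.aeval_X_left_apply] at this
    exact this
  rw [h4] at h1
  by_contra hne
  exact algebraMap_ne_zero' hne h1

omit [IsScalarTower K (F0 K) (FF K 3)] in
include h2 h3 ht hQ hS hR in
/-- The endomorphism. -/
theorem exists_phi : ∃ φ : FF K 3 →ₐ[K] FF K 3, φ (va K) = a ∧ φ (vb K) = b ∧ φ (vs K) = s ∧
    φ (gY K) = Y ∧ φ (gZ K) = Z ∧ φ (tt K (FF K 3)) = tt K (FF K 3) := by
  set φ : FF K 3 →ₐ[K] FF K 3 :=
    IsFractionRing.liftAlgHom (param_injective h2 h3 ht hQ hS hR) with hφ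
  have hv : ∀ i, φ (var K 3 i) = (![a, b, s] : Fin 3 → FF K 3) i := by
    intro i
    rw [hφ, IsFractionRing.liftAlgHom_apply]
    unfold var
    rw [IsFractionRing.lift_algebraMap]
    simp
  have ha : φ (va K) = a := hv 0
  have hb : φ (vb K) = b := hv 1
  have hs : φ (vs K) = s := hv 2
  have h2' : (2 : FF K 3) ≠ 0 := two_ne_of h2
  have hY : φ (gY K) = Y := by
    have e : φ (gY K) = Yf (φ (va K)) (φ (vb K)) (φ (vs K)) := by
      simp only [gY, Yf, map_div₀, map_add, map_sub, map_mul, map_pow, map_one, map_ofNat]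
    rw [e, ha, hb, hs]
    exact hR.2.2.eq_Y h2'
  have hZ : φ (gZ K) = Z := by
    have e : φ (gZ K) = 1 + φ (vs K) * (φ (gY K) - 1) := by
      simp only [gZ, Zf, gY, map_add, map_sub, map_mul, map_one]
    rw [e, hY, hs, hR.2.2.hs]
    ring
  have hu : φ (gu K) = gu K := by
    have e : φ (gu K) = (φ (gY K) ^ 2 - 1) / (φ (va K) ^ 3 - 1) := by
      simp only [gu, uf, gY, map_div₀, map_sub, map_pow, map_one]
    rw [e, hY, ha, hR.2.2.hY, mul_div_assoc, div_self hR.2.2.a3, mul_one, ht]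
  refine ⟨φ, ha, hb, hs, hY, hZ, ?_⟩
  rw [ht, hu]

end Q52.Deg
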