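import Mathlib
import Pool.Agent.Q52.Deg.Phi

set_option autoImplicit false

/-!
The iterates of the endomorphism.
-/

namespace Q52.Deg

open WeierstrassCurve

/-- the decidability instance used throughout -/
noncomputable local instance decF03 {K : Type*} [Field K] : DecidableEq (F0 K) := Classical.decEq _

/-- the decidability instance used throughout -/
noncomputable local instance decFF3 {K : Type*} [Field K] {N : ℕ} : DecidableEq (FF K N) :=
  Classical.decEq _

/-! ### the tuple of the test curve -/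

section tuple

variable {K : Type*} [Field K]

open Polynomial

/-- numerators of the test curve -/
noncomputable def pp (K : Type*) [Field K] : Fin 3 → K[X] :=
  ![(C 9 * X - C 8) * (C 27 * X ^ 2 - C 36 * X + C 16),
    C 4 * (C 27 * X ^ 2 - C 36 * X + C 16), C 64]

/-- denominator of the test curve -/
noncomputable def qq (K : Type*) [Field K] : K[X] := C 4 * (C 27 * X ^ 2 - C 36 * X + C 16)

theorem natDegree_quad : (C 27 * X ^ 2 - C 36 * X + C 16 : K[X]).natDegree ≤ 2 := by
  compute_degree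

theorem natDegree_qq : (qq K).natDegree ≤ 3 := by
  unfold qq
  exact (natDegree_C_mul_le _ _).trans (natDegree_quad.trans (by norm_num))

theorem natDegree_pp (i : Fin 3) : (pp K i).natDegree ≤ 3 := by
  fin_cases i
  · show ((C 9 * X - C 8) * (C 27 * X ^ 2 - C 36 * X + C 16) : K[X]).natDegree ≤ 3
    refine natDegree_mul_le.trans ?_
    have h1 : (C 9 * X - C 8 : K[X]).natDegree ≤ 1 := by compute_degree
    have h2 := natDegree_quad (K := K)
    omega
  · exact natDegree_qq
  · show (C 64 : K[X]).natDegree ≤ 3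
    simp

theorem qq_ne_zero (h2 : (2 : K) ≠ 0) : qq K ≠ 0 := by
  intro h
  have h' := congrArg (eval 0) h
  simp only [qq, eval_mul, eval_C, eval_add, eval_sub, eval_pow, eval_X, eval_zero] at h'
  have e : (2 : K) ^ 6 = 0 := by linear_combination h'
  exact pow_ne_zero _ h2 e

theorem tup_eq (h2 : (2 : K) ≠ 0) : tup K (Y0 K) = fun i => algebraMap K[X] (F0 K) (pp K i) /
    algebraMap K[X] (F0 K) (qq K) := by
  have hq := algebraMap_ne (qq_ne_zero h2)
  have eq : algebraMap K[X] (F0 K) (qq K) = 4 * (27 * T K ^ 2 - 36 * T K + 16) := by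
    simp only [qq, map_mul, map_add, map_sub, map_pow, map_ofNat, T_eq]
  have h4 := four_ne h2
  have h8 := eight_ne h2
  have hquad : (27 * T K ^ 2 - 36 * T K + 16) ≠ 0 := by
    intro h
    rw [eq, h, mul_zero] at hq
    exact hq rfl
  funext i
  fin_cases i
  · show Xk K 1 = algebraMap K[X] (F0 K) ((C 9 * X - C 8) * (C 27 * X ^ 2 - C 36 * X + C 16)) / _
    rw [eq, Xk_one]
    simp only [map_mul, map_add, map_sub, map_pow, map_ofNat, T_eq]
    rw [div_eq_div_iff h4 (mul_ne_zero h4 hquad)]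
    ring
  · show 1 = algebraMap K[X] (F0 K) (qq K) / _
    rw [div_self hq]
  · show (-1 - 1) / (Y0 K - 1) = algebraMap K[X] (F0 K) (C 64) / _
    rw [eq]
    simp only [map_ofNat]
    have e : Y0 K - 1 = -(27 * T K ^ 2 - 36 * T K + 16) / 8 := by
      unfold Y0
      field_simp
      ring
    rw [e]
    field_simp
    ring

end tuple

variable {K : Type*} [Field K] [Algebra (F0 K) (FF K 3)] [IsScalarTower K (F0 K) (FF K 3)]

/-- The endomorphism is linear over the subfield `K(u)`. -/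
noncomputable def phiF (φ : FF K 3 →ₐ[K] FF K 3) (hφ : φ (tt K (FF K 3)) = tt K (FF K 3)) :
    FF K 3 →ₐ[F0 K] FF K 3 :=
  { toRingHom := (φ : FF K 3 →+* FF K 3)
    commutes' := by
      intro c
      have h : φ.comp (IsScalarTower.toAlgHom K (F0 K) (FF K 3)) =
          IsScalarTower.toAlgHom K (F0 K) (FF K 3) := hom_ext hφ
      exact DFunLike.congr_fun h c }

theorem phiF_apply (φ : FF K 3 →ₐ[K] FF K 3) (hφ : φ (tt K (FF K 3)) = tt K (FF K 3))
    (x : FF K 3) : phiF φ hφ x = φ x := rfl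

/-- The action on points. -/
noncomputable def MM (φ : FF K 3 →ₐ[K] FF K 3) (hφ : φ (tt K (FF K 3)) = tt K (FF K 3)) :
    EP (D0 K) (FF K 3) →+ EP (D0 K) (FF K 3) :=
  Affine.Point.map (W' := (Wc (D0 K)).toAffine) (phiF φ hφ)

theorem isPt_MM {φ : FF K 3 →ₐ[K] FF K 3} (hφ : φ (tt K (FF K 3)) = tt K (FF K 3))
    {P : EP (D0 K) (FF K 3)} {x y : FF K 3} (h : IsPt (D0 K) P x y) :
    IsPt (D0 K) (MM φ hφ P) (φ x) (φ y) :=
  IsPt.map (phiF φ hφ) h

theorem isPt_iter {φ : FF K 3 →ₐ[K] FF K 3} (hφ : φ (tt K (FF K 3)) = tt K (FF K 3))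
    {P : EP (D0 K) (FF K 3)} {x y : FF K 3} (h : IsPt (D0 K) P x y) (n : ℕ) :
    IsPt (D0 K) ((MM φ hφ)^[n] P) ((φ ^ n) x) ((φ ^ n) y) := by
  induction n with
  | zero => exact h
  | succ n ih =>
    rw [Function.iterate_succ_apply', pow_succ']
    exact isPt_MM hφ ih

variable {φ : FF K 3 →ₐ[K] FF K 3} (hφ : φ (tt K (FF K 3)) = tt K (FF K 3))
  {Q₁ Q₂ S : EP (D0 K) (FF K 3)}
  (hQ : Par Q₁ Q₂ (va K) (vb K) (vs K) (gY K) (gZ K))
  (hS : IsPt (D0 K) S (tt K (FF K 3)) (tt K (FF K 3)))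
  (h1 : MM φ hφ Q₁ = Q₁ + S + S) (h2' : MM φ hφ Q₂ = Q₂ + (Q₁ + S)) (h3' : MM φ hφ S = S)

include h1 h3' in
theorem iter_Q₁ (n : ℕ) : (MM φ hφ)^[n] Q₁ = Q₁ + (2 * n) • S := by
  induction n with
  | zero => simp
  | succ n ih =>
    rw [Function.iterate_succ_apply', ih, map_add, map_nsmul, h1, h3']
    module

include h1 h2' h3' in
theorem iter_Q₂ (n : ℕ) : (MM φ hφ)^[n] Q₂ = Q₂ + (n • Q₁ + (n ^ 2) • S) := by
  induction n with
  | zero => simp
  | succ n ih =>
    rw [Function.iterate_succ_apply', ih, map_add, map_add, map_nsmul, map_nsmul, h1, h2', h3']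
    have e : (n + 1) ^ 2 = n ^ 2 + 2 * n + 1 := by ring
    rw [e]
    module

omit [IsScalarTower K (F0 K) (FF K 3)] in
include hφ in
theorem pow_tt (n : ℕ) : (φ ^ n) (tt K (FF K 3)) = tt K (FF K 3) := by
  induction n with
  | zero => rfl
  | succ n ih =>
    rw [pow_succ]
    show (φ ^ n) (φ (tt K (FF K 3))) = _
    rw [hφ, ih]

end Q52.Deg
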