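import Mathlib
import Pool.Agent.Q52.Deg.Dyn

set_option autoImplicit false

/-!
Degree bounds along the powers of two.
-/

namespace Q52.Deg

open WeierstrassCurve

/-- the decidability instance used throughout -/
noncomputable local instance decF04 {K : Type*} [Field K] : DecidableEq (F0 K) := Classical.decEq _

/-- the decidability instance used throughout -/
noncomputable local instance decFF4 {K : Type*} [Field K] {N : ℕ} : DecidableEq (FF K N) :=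
  Classical.decEq _

variable {K : Type*} [Field K] [Algebra (F0 K) (FF K 3)] [IsScalarTower K (F0 K) (FF K 3)]

variable (h2 : (2 : K) ≠ 0) (h3 : (3 : K) ≠ 0) (ht : tt K (FF K 3) = gu K)
  {φ : FF K 3 →ₐ[K] FF K 3} (hφ : φ (tt K (FF K 3)) = tt K (FF K 3))
  {Q₁ Q₂ S : EP (D0 K) (FF K 3)}
  (hQ : Par Q₁ Q₂ (va K) (vb K) (vs K) (gY K) (gZ K))
  (hS : IsPt (D0 K) S (tt K (FF K 3)) (tt K (FF K 3)))
  (h1 : MM φ hφ Q₁ = Q₁ + S + S) (h2' : MM φ hφ Q₂ = Q₂ + (Q₁ + S)) (h3' : MM φ hφ S = S)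
  {s : EP (D0 K) (F0 K)} (hs : IsPt (D0 K) s (T K) (T K))
  {y : Fin 3 → F0 K} {d : ℕ} (t1 : Tr y Q₁ (s + s) d) (t2 : Tr y Q₂ (-s) d) (t3 : Tr y S s d)

omit [IsScalarTower K (F0 K) (FF K 3)] in
include h2 h3 hs t1 t3 in
/-- The specialization of `2 ^ j Q₁ + 4 ^ j S`. -/
theorem tr_sum (j : ℕ) (hj : 2 ≤ j) : Tr y (2 ^ j • Q₁ + 2 ^ (2 * j) • S)
    (2 ^ (j + 1) • s + 2 ^ (2 * j) • s) (16 * (16 ^ (2 * j) * d)) := by
  have hF2 : (2 : F0 K) ≠ 0 := two_ne h2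
  have hK2 : (2 : FF K 3) ≠ 0 := two_ne_of h2
  have a1 := t1.two_pow hF2 hK2 (fun k => ndeg h2 h3 hs (m := 2 ^ (k + 1)) (n := -2 ^ (k + 1))
    (by module) (by module) (by
      have : (0 : ℤ) < 2 ^ (k + 1) := by positivity
      omega)) j
  have a2 := t3.two_pow hF2 hK2 (fun k => ndeg h2 h3 hs (m := 2 ^ k) (n := -2 ^ k)
    (by module) (by module) (by
      have : (0 : ℤ) < 2 ^ k := by positivity
      omega)) (2 * j)
  have e : 2 ^ j • (s + s) = 2 ^ (j + 1) • s := by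
    rw [pow_succ]
    module
  rw [e] at a1
  have hlt : (2 : ℤ) ^ (j + 1) < 2 ^ (2 * j) := pow_lt_pow_right₀ (by norm_num) (by omega)
  have hpos : (0 : ℤ) < 2 ^ (j + 1) := by positivity
  have hmono : 16 ^ j * d ≤ 16 ^ (2 * j) * d :=
    Nat.mul_le_mul_right _ (Nat.pow_le_pow_right (by norm_num) (by omega))
  have e1 : (2 ^ (j + 1) • s : EP (D0 K) (F0 K)) = ((2 : ℤ) ^ (j + 1)) • s := by
    rw [← natCast_zsmul]
    norm_cast
  have e2 : (2 ^ (2 * j) • s : EP (D0 K) (F0 K)) = ((2 : ℤ) ^ (2 * j)) • s := by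
    rw [← natCast_zsmul]
    norm_cast
  have e2n : -(2 ^ (2 * j) • s : EP (D0 K) (F0 K)) = (-(2 : ℤ) ^ (2 * j)) • s := by
    rw [e2, neg_smul]
  exact (a1.mono hmono).add a2 (ndeg h2 h3 hs e1 e2 (by omega)) (ndeg h2 h3 hs e1 e2n (by omega))

omit [IsScalarTower K (F0 K) (FF K 3)] in
include h2 h3 hs t1 t2 t3 in
/-- The specialization of `Q₂ + 2 ^ j Q₁ + 4 ^ j S`. -/
theorem tr_Q₂ (j : ℕ) (hj : 2 ≤ j) : Tr y (Q₂ + (2 ^ j • Q₁ + 2 ^ (2 * j) • S))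
    (-s + (2 ^ (j + 1) • s + 2 ^ (2 * j) • s)) (256 * 256 ^ j * d) := by
  have a1 := tr_sum h2 h3 hs t1 t3 j hj
  have hle : d ≤ 16 * (16 ^ (2 * j) * d) := by
    have : 1 ≤ 16 ^ (2 * j) := Nat.one_le_pow _ _ (by norm_num)
    nlinarith
  have hpos : (0 : ℤ) < 2 ^ (j + 1) := by positivity
  have hpos' : (0 : ℤ) < 2 ^ (2 * j) := by positivity
  have hge : (4 : ℤ) ≤ 2 ^ (2 * j) := by
    calc (4 : ℤ) = 2 ^ 2 := by norm_num
      _ ≤ 2 ^ (2 * j) := pow_le_pow_right₀ (by norm_num) (by omega)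
  have e1 : (2 ^ (j + 1) • s + 2 ^ (2 * j) • s : EP (D0 K) (F0 K)) =
      ((2 : ℤ) ^ (j + 1) + 2 ^ (2 * j)) • s := by
    rw [add_smul, ← natCast_zsmul, ← natCast_zsmul]
    norm_cast
  have e1n : -(2 ^ (j + 1) • s + 2 ^ (2 * j) • s : EP (D0 K) (F0 K)) =
      (-((2 : ℤ) ^ (j + 1) + 2 ^ (2 * j))) • s := by
    rw [e1, neg_smul]
  have e2 : -s = (-1 : ℤ) • s := by module
  have a2 := (t2.mono hle).add a1 (ndeg h2 h3 hs e2 e1 (by omega)) (ndeg h2 h3 hs e2 e1n (by omega))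
  refine a2.mono (le_of_eq ?_)
  rw [pow_mul]
  norm_num
  ring

omit [IsScalarTower K (F0 K) (FF K 3)] in
include h2 h3 hs t1 t3 in
/-- The specialization of `Q₁ + 2 ^ (j + 1) S`. -/
theorem tr_Q₁ (j : ℕ) (hj : 2 ≤ j) : Tr y (Q₁ + 2 ^ (j + 1) • S)
    (s + s + 2 ^ (j + 1) • s) (256 * 256 ^ j * d) := by
  have hF2 : (2 : F0 K) ≠ 0 := two_ne h2
  have hK2 : (2 : FF K 3) ≠ 0 := two_ne_of h2
  have a2 := t3.two_pow hF2 hK2 (fun k => ndeg h2 h3 hs (m := 2 ^ k) (n := -2 ^ k)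
    (by module) (by module) (by
      have : (0 : ℤ) < 2 ^ k := by positivity
      omega)) (j + 1)
  have hle : d ≤ 16 ^ (j + 1) * d := by
    have : 1 ≤ 16 ^ (j + 1) := Nat.one_le_pow _ _ (by norm_num)
    nlinarith
  have hge : (8 : ℤ) ≤ 2 ^ (j + 1) := by
    calc (8 : ℤ) = 2 ^ 3 := by norm_num
      _ ≤ 2 ^ (j + 1) := pow_le_pow_right₀ (by norm_num) (by omega)
  have e1 : (2 ^ (j + 1) • s : EP (D0 K) (F0 K)) = ((2 : ℤ) ^ (j + 1)) • s := by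
    rw [← natCast_zsmul]
    norm_cast
  have e1n : -(2 ^ (j + 1) • s : EP (D0 K) (F0 K)) = (-(2 : ℤ) ^ (j + 1)) • s := by
    rw [e1, neg_smul]
  have e2 : s + s = (2 : ℤ) • s := by module
  have a3 := (t1.mono hle).add a2 (ndeg h2 h3 hs e2 e1 (by omega)) (ndeg h2 h3 hs e2 e1n (by omega))
  refine a3.mono ?_
  have h16 : 16 ^ j ≤ 256 ^ j := Nat.pow_le_pow_left (by norm_num) j
  calc 16 * (16 ^ (j + 1) * d) = 256 * 16 ^ j * d := by ring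
    _ ≤ 256 * 256 ^ j * d := by gcongr

include h2 h3 hQ hS h1 h2' h3' hs t1 t2 t3 in
/-- Heights of the coordinates of the iterates, and the specialization. -/
theorem iter_bound (j : ℕ) (hj : 2 ≤ j) :
    HB ((φ ^ 2 ^ j) (va K)) (257 * 256 ^ j * d) ∧ HB ((φ ^ 2 ^ j) (vb K)) (257 * 256 ^ j * d) ∧
    HB ((φ ^ 2 ^ j) (vs K)) (2 * (257 * 256 ^ j * d)) ∧
    ∃ x' y', IsPt (D0 K) (-s + (2 ^ (j + 1) • s + 2 ^ (2 * j) • s)) x' y' ∧
      Red y (tt K (FF K 3) * (φ ^ 2 ^ j) (vb K)) x' := by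
  have ht0 := tt_ne_zero (K := K) (F := FF K 3)
  have g1 := isPt_iter hφ hQ.1 (2 ^ j)
  have g2 := isPt_iter hφ hQ.2.1 (2 ^ j)
  rw [iter_Q₁ hφ h1 h3', map_mul, map_mul, pow_tt hφ] at g1
  rw [iter_Q₂ hφ h1 h2' h3', map_mul, map_mul, pow_tt hφ] at g2
  have e1 : 2 * 2 ^ j = 2 ^ (j + 1) := by ring
  have e2 : (2 ^ j) ^ 2 = 2 ^ (2 * j) := by rw [← pow_mul, mul_comm]
  rw [e1] at g1
  rw [e2] at g2
  have b1 := tr_Q₁ h2 h3 hs t1 t3 j hj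
  have b2 := tr_Q₂ h2 h3 hs t1 t2 t3 j hj
  obtain ⟨x₁, x₂, x₁', x₂', p1, p2, p3, p4, p5, p6⟩ := b1
  obtain ⟨z₁, z₂, z₁', z₂', q1, q2, q3, q4, q5, q6⟩ := b2
  obtain ⟨rfl, rfl⟩ := p1.inj g1
  obtain ⟨rfl, rfl⟩ := q1.inj g2
  -- height of `u`
  have hu : HB (tt K (FF K 3)) d := by
    obtain ⟨w₁, w₂, w₁', w₂', r1, r2, r3, r4, r5, r6⟩ := t3
    obtain ⟨rfl, rfl⟩ := r1.inj hS
    exact r5
  have hd : 1 ≤ 256 ^ j := Nat.one_le_pow _ _ (by norm_num)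
  have key : ∀ r : FF K 3, HB (tt K (FF K 3) * r) (256 * 256 ^ j * d) →
      HB r (257 * 256 ^ j * d) := by
    intro r hr
    have h := (isHt_HB 3).div hr hu
    rw [mul_div_cancel_left₀ _ ht0] at h
    refine h.mono ?_
    nlinarith
  have ha := key _ p5
  have hY := key _ p6
  have hb := key _ q5
  have hZ := key _ q6
  refine ⟨ha, hb, ?_, z₁', _, q2, q3⟩
  have hY1 : (φ ^ 2 ^ j) (gY K) - 1 ≠ 0 := by
    intro h
    have h0 : (φ ^ 2 ^ j) (gY K - 1) = 0 := by rw [map_sub, map_one, h]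
    have hinj := ((φ ^ 2 ^ j : FF K 3 →ₐ[K] FF K 3) : FF K 3 →+* FF K 3).injective
    exact sub_ne_zero.2 hQ.2.2.Y1 (hinj (h0.trans (map_zero _).symm))
  have hvs : (φ ^ 2 ^ j) (vs K) =
      ((φ ^ 2 ^ j) (gZ K) - 1) / ((φ ^ 2 ^ j) (gY K) - 1) := by
    rw [eq_div_iff hY1]
    have := congrArg (fun r => (φ ^ 2 ^ j) r) hQ.2.2.hs
    rw [map_mul, map_sub, map_sub, map_one] at this
    exact this
  rw [hvs]
  have h1' : HB (1 : FF K 3) 0 := by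
    have := (isHt_HB (K := K) 3).nat 1
    simpa using this
  have h := (isHt_HB 3).div ((isHt_HB 3).sub hZ h1') ((isHt_HB 3).sub hY h1')
  exact h.mono (by omega)

end Q52.Deg
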