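import Mathlib
import Pool.Agent.Q52.Deg.Bound

set_option autoImplicit false

/-!
Degrees of the iterates.
-/

namespace Q52.Deg

open WeierstrassCurve Filter Topology

/-- the decidability instance used throughout -/
noncomputable local instance decF05 {K : Type*} [Field K] : DecidableEq (F0 K) := Classical.decEq _

/-- the decidability instance used throughout -/
noncomputable local instance decFF5 {K : Type*} [Field K] {N : ℕ} : DecidableEq (FF K N) :=
  Classical.decEq _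

theorem exists_phi_bounds {K : Type*} [Field K] (h2 : (2 : K) ≠ 0) (h3 : (3 : K) ≠ 0) :
    ∃ φ : FF K 3 →ₐ[K] FF K 3,
      (∃ c C, 1 ≤ c ∧ 1 ≤ C ∧ ∀ j, degSeq φ (2 ^ j) ≤ c * C ^ j) ∧
      ∀ j, 2 ≤ j → dg (2 * j) ≤ 768 * (degSeq φ (2 ^ j) * 3 + 1 + dg (j + 1)) + 2305 := by
  letI : Algebra (F0 K) (FF K 3) := (iota h2 h3).toRingHom.toAlgebra
  haveI : IsScalarTower K (F0 K) (FF K 3) :=
    IsScalarTower.of_algebraMap_eq fun c => ((iota h2 h3).commutes c).symm
  have ht : tt K (FF K 3) = gu K := iota_T h2 h3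
  obtain ⟨s, hs⟩ := exists_sigma h2 h3
  obtain ⟨Q₁, Q₂, hQ⟩ := exists_Q h2 h3 ht
  obtain ⟨S, hS⟩ := exists_S h2 h3 (FF K 3)
  obtain ⟨a, b, s', Y, Z, hR⟩ := exists_par_image h2 h3 ht hQ hS
  obtain ⟨φ, ha, hb, -, hY, hZ, hφ⟩ := exists_phi h2 h3 ht hQ hS hR
  have h1 : MM φ hφ Q₁ = Q₁ + S + S := by
    have h := isPt_MM hφ hQ.1
    rw [map_mul, map_mul, hφ, ha, hY] at h
    exact h.eq' hR.1
  have h2' : MM φ hφ Q₂ = Q₂ + (Q₁ + S) := by
    have h := isPt_MM hφ hQ.2.1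
    rw [map_mul, map_mul, hφ, hb, hZ] at h
    exact h.eq' hR.2.1
  have h3' : MM φ hφ S = S := by
    have h := isPt_MM hφ hS
    rw [hφ] at h
    exact h.eq' hS
  obtain ⟨d, t1, t2, t3⟩ := spec h2 ht hQ hS (par_plus h2 h3 hs) hs
  have hbound := iter_bound h2 h3 hφ hQ hS h1 h2' h3' hs t1 t2 t3
  refine ⟨φ, ?_, ?_⟩
  · refine ⟨4 * (257 * d) + degSeq φ 1 + degSeq φ 2, 256, ?_, by norm_num, ?_⟩
    · have := degSeq_pos (by norm_num) φ 1
      omega
    · intro j
      have hj : 1 ≤ 256 ^ j := Nat.one_le_pow _ _ (by norm_num)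
      have hle : 4 * (257 * d) + degSeq φ 1 + degSeq φ 2 ≤
          (4 * (257 * d) + degSeq φ 1 + degSeq φ 2) * 256 ^ j := Nat.le_mul_of_pos_right _ hj
      rcases Nat.lt_or_ge j 2 with hlt | hge
      · interval_cases j
        · refine le_trans ?_ hle
          rw [pow_zero]
          omega
        · refine le_trans ?_ hle
          rw [pow_one]
          omega
      · obtain ⟨b1, b2, b3, -⟩ := hbound j hge
        have h := degSeq_le φ (2 ^ j) ![257 * 256 ^ j * d, 257 * 256 ^ j * d,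
          2 * (257 * 256 ^ j * d)] (by
            intro i
            fin_cases i
            · exact b1
            · exact b2
            · exact b3)
        rw [Fin.sum_univ_three] at h
        refine h.trans ?_
        show 257 * 256 ^ j * d + 257 * 256 ^ j * d + 2 * (257 * 256 ^ j * d) ≤ _
        nlinarith [Nat.zero_le (degSeq φ 1 * 256 ^ j), Nat.zero_le (degSeq φ 2 * 256 ^ j)]
  · intro j hj
    obtain ⟨-, -, -, x', y', hx', hred⟩ := hbound j hj
    have hru := red_tt h2 ht (par_plus h2 h3 hs)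
    have hT := T_ne_zero (K := K)
    have ht0 := tt_ne_zero (K := K) (F := FF K 3)
    have hvb : Red (tup K (Y0 K)) ((φ ^ 2 ^ j) (vb K)) (x' / T K) := by
      have h := hred.div hru hT
      rwa [mul_div_cancel_left₀ _ ht0] at h
    rw [tup_eq h2] at hvb
    have hHB := HB.red (qq_ne_zero h2) 3 natDegree_pp natDegree_qq (HB_pow φ (2 ^ j) 1) hvb
    have hx : HB1 x' (degSeq φ (2 ^ j) * 3 + 1) := by
      have h := isHt_HB1.mul hHB HB1_T
      rwa [div_mul_cancel₀ _ hT] at h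
    exact height_lower h2 h3 hs j (by omega) hx' hx

/-- The lower bound in terms of `n = 2 ^ j`. -/
theorem lower_aux {e : ℕ → ℕ}
    (h : ∀ j, 2 ≤ j → dg (2 * j) ≤ 768 * (e (2 ^ j) * 3 + 1 + dg (j + 1)) + 2305) (j : ℕ)
    (hj : 7 ≤ j) : ((2 : ℝ) ^ j) ^ 4 ≤ 13824 * e (2 ^ j) := by
  have h1 := h j (by omega)
  have e1 := three_dg (2 * j)
  have e2 := three_dg (j + 1)
  have e3 : 4 ^ (2 * j) = (2 ^ j) ^ 4 := by
    rw [← pow_mul, show 4 = 2 ^ 2 from rfl, ← pow_mul]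
    congr 1
    ring
  have e4 : 4 ^ (j + 1) = 4 * (2 ^ j) ^ 2 := by
    rw [pow_succ, ← pow_mul, show 4 = 2 ^ 2 from rfl, ← pow_mul]
    ring
  rw [e3] at e1
  rw [e4] at e2
  set n := 2 ^ j with hn
  have hn7 : 128 ≤ n := by
    calc 128 = 2 ^ 7 := by norm_num
      _ ≤ 2 ^ j := Nat.pow_le_pow_right (by norm_num) hj
  have h5 : n ^ 4 ≤ 6912 * e n + 3072 * n ^ 2 + 8452 := by omega
  have h6 : 3072 * n ^ 2 + 8452 ≤ 6144 * n ^ 2 := by nlinarith
  have h7 : 12288 * n ^ 2 ≤ n ^ 4 := by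
    have : 16384 ≤ n ^ 2 := by nlinarith
    nlinarith
  have h8 : n ^ 4 ≤ 13824 * e n := by omega
  have h9 : ((n : ℝ)) ^ 4 ≤ 13824 * e n := by exact_mod_cast h8
  have h10 : (n : ℝ) = 2 ^ j := by rw [hn]; push_cast; rfl
  rw [← h10]
  exact h9

end Q52.Deg
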